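import Pool.Agent.InjB.HLa

namespace Pool.Agent.InjB

open Finset MeasureTheory ProbabilityTheory Matrix
open Pool.Agent.InjP
open Pool.Agent.SymASQ (sg)

theorem pn_le_pn {d : ℕ} (hd : 1 ≤ d) {p q : ℝ} (hp : 0 < p) (hpq : p ≤ q) (x : Fin d → ℝ) :
    pn p x ≤ (d : ℝ) ^ (1 / p - 1 / q) * pn q x := by
  have hq : 0 < q := hp.trans_le hpq
  have h1 : (1 : ℝ) ≤ q / p := by rw [le_div_iff₀ hp]; linarith
  have hd0 : (0 : ℝ) ≤ d := Nat.cast_nonneg d
  have h := Real.rpow_sum_le_const_mul_sum_rpow (s := (Finset.univ : Finset (Fin d)))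
    (fun i => |x i| ^ p) h1
  have e1 : ∀ i : Fin d, |(|x i| ^ p)| = |x i| ^ p := fun i =>
    abs_of_nonneg (Real.rpow_nonneg (abs_nonneg _) _)
  have e2 : ∀ i : Fin d, |(|x i| ^ p)| ^ (q / p) = |x i| ^ q := fun i => by
    rw [e1, ← Real.rpow_mul (abs_nonneg _)]
    congr 1
    field_simp
  simp only [e1] at h
  simp only [← Real.rpow_mul (abs_nonneg _)] at h
  have e3 : p * (q / p) = q := by field_simp
  simp only [e3, Finset.card_univ, Fintype.card_fin] at h
  have hS : 0 ≤ ∑ i, |x i| ^ p := Finset.sum_nonneg fun i _ => Real.rpow_nonneg (abs_nonneg _) _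
  have hT : 0 ≤ ∑ i, |x i| ^ q := Finset.sum_nonneg fun i _ => Real.rpow_nonneg (abs_nonneg _) _
  have h2 := Real.rpow_le_rpow (Real.rpow_nonneg hS _) h (by positivity : (0 : ℝ) ≤ 1 / q)
  rw [← Real.rpow_mul hS, Real.mul_rpow (Real.rpow_nonneg hd0 _) hT, ← Real.rpow_mul hd0] at h2
  have e4 : q / p * (1 / q) = 1 / p := by field_simp
  have e5 : (q / p - 1) * (1 / q) = 1 / p - 1 / q := by field_simp
  rw [e4, e5] at h2
  exact h2

theorem ML_smul {ι : Type} [Fintype ι] [DecidableEq ι] {d : ℕ} (S : (ι → Fin d) → ℝ) (c : ℝ)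
    (y : ι → Fin d → ℝ) : ML S (fun l => c • y l) = c ^ Fintype.card ι * ML S y := by
  unfold ML
  rw [Finset.mul_sum]
  refine Finset.sum_congr rfl fun k _ => ?_
  simp only [Pi.smul_apply, smul_eq_mul]
  rw [Finset.prod_mul_distrib, Finset.prod_const, Finset.card_univ]
  ring

theorem hl_all {ι : Type} [Fintype ι] [DecidableEq ι] {d : ℕ} (hd : 1 ≤ d) {p K : ℝ} (hp : 0 < p)
    (hK : 0 ≤ K) {S : (ι → Fin d) → ℝ}
    (hS : ∀ y : ι → Fin d → ℝ, (∀ l, pn p (y l) ≤ 1) → |ML S y| ≤ K) :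
    ∑ j, S j ^ 2 ≤ 3 ^ Fintype.card ι * K ^ 2 * (d : ℝ) ^ max 0 (2 * (Fintype.card ι : ℝ) / p - 1) := by
  have hd1 : (1 : ℝ) ≤ d := by exact_mod_cast hd
  have hd0 : (0 : ℝ) < d := by linarith
  by_cases hc : 2 * (Fintype.card ι : ℝ) ≤ p
  · have : max 0 (2 * (Fintype.card ι : ℝ) / p - 1) = 0 := by
      rw [max_eq_left]
      have : 2 * (Fintype.card ι : ℝ) / p ≤ 1 := by rw [div_le_one hp]; exact hc
      linarith
    rw [this, Real.rpow_zero, mul_one]
    exact hl hp hc hK hS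
  · push Not at hc
    set q : ℝ := 2 * (Fintype.card ι : ℝ) with hq
    have hq0 : 0 < q := hp.trans hc
    set D : ℝ := (d : ℝ) ^ (1 / p - 1 / q) with hD
    have hD0 : 0 < D := Real.rpow_pos_of_pos hd0 _
    have key : ∀ y : ι → Fin d → ℝ, (∀ l, pn q (y l) ≤ 1) → |ML S y| ≤ K * D ^ Fintype.card ι := by
      intro y hy
      have h1 := hS (fun l => D⁻¹ • y l) (fun l => by
        rw [pn_smul hp, abs_of_pos (inv_pos.2 hD0)]
        have := pn_le_pn hd hp hc.le (y l)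
        rw [inv_mul_le_iff₀ hD0, mul_one]
        exact this.trans (mul_le_of_le_one_right hD0.le (hy l)))
      rw [ML_smul, abs_mul, abs_of_pos (pow_pos (inv_pos.2 hD0) _), inv_pow,
        inv_mul_le_iff₀ (pow_pos hD0 _)] at h1
      linarith
    have h2 := hl hq0 (le_of_eq hq.symm) (mul_nonneg hK (pow_nonneg hD0.le _)) key
    have e1 : (D ^ Fintype.card ι) ^ 2 = (d : ℝ) ^ max 0 (q / p - 1) := by
      have : max 0 (q / p - 1) = q / p - 1 := by
        rw [max_eq_right]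
        have : 1 ≤ q / p := by rw [le_div_iff₀ hp]; linarith
        linarith
      rw [this, ← pow_mul, hD, ← Real.rpow_natCast, ← Real.rpow_mul hd0.le]
      congr 1
      push_cast
      rw [mul_comm (Fintype.card ι : ℝ) 2, ← hq]
      field_simp
    rw [mul_pow, e1, ← mul_assoc] at h2
    exact h2

end Pool.Agent.InjB
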