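import Pool.Agent.InjB.Pol
import Pool.Agent.InjB.HL

/-!
# MP_e7fc82_pr, module CtrB: the contractions of a bounded form are Hilbert-Schmidt (helper41)

`hl_all` for `ι = {a // a ∈ C}`, `S = ctr T x C`, `K = (2 s) ^ (2 s) * injNorm p T`: by multilinearity
`ML (ctr T x C) y = ML T (Fin.append (fun a => if h : a ∈ C then y ⟨a, h⟩ else x) (fun _ => x))`
(in `ML (ctr T x C) y = ∑ i, ctr T x C i * ∏ y` exchange the sums; `∑ i, (∏_{a ∈ C} Pi.single (i a) 1 (k a)) * ∏ y a (i a) =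
∏_{a ∈ C} y a (k a)`), and `ml_le`.
-/

namespace Pool.Agent.InjB

open Finset MeasureTheory ProbabilityTheory Matrix
open Pool.Agent.InjP
open Pool.Agent.SymASQ (sg)

private theorem prod_append {s N : ℕ} (f g : Fin s → Fin N → ℝ) (k : Fin (s + s) → Fin N) :
    ∏ j, (Fin.append f g : Fin (s + s) → Fin N → ℝ) j (k j) =
      (∏ a, f a (k (Fin.castAdd s a))) * ∏ b, g b (k (Fin.natAdd s b)) := by
  rw [Fin.prod_univ_add]
  simp only [Fin.append_left, Fin.append_right]

private theorem sum_single {s d : ℕ} (x : Fin d → ℝ) (C : Finset (Fin s))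
    (y : {a // a ∈ C} → Fin d → ℝ) (m : Fin s → Fin d) :
    ∑ i : {a // a ∈ C} → Fin d,
      (∏ a, (if h : a ∈ C then (Pi.single (i ⟨a, h⟩) 1 : Fin d → ℝ) else x) (m a)) * ∏ l, y l (i l) =
      ∏ a, (if h : a ∈ C then y ⟨a, h⟩ else x) (m a) := by
  have h1 : ∀ z : {a // a ∈ C} → Fin d → ℝ,
      ∏ a, (if h : a ∈ C then z ⟨a, h⟩ else x) (m a) =
        (∏ l : {a // a ∈ C}, z l (m l)) * ∏ l : {a // a ∉ C}, x (m l) := by
    intro z
    rw [← Fintype.prod_subtype_mul_prod_subtype (fun a => a ∈ C)]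
    congr 1
    · exact Finset.prod_congr (Finset.ext fun _ => by simp only [Finset.mem_univ])
        fun l _ => by rw [dif_pos l.2]
    · exact Finset.prod_congr (Finset.ext fun _ => by simp only [Finset.mem_univ])
        fun l _ => by rw [dif_neg l.2]
  rw [h1 y]
  have h2 : ∀ i : {a // a ∈ C} → Fin d,
      (∏ a, (if h : a ∈ C then (Pi.single (i ⟨a, h⟩) 1 : Fin d → ℝ) else x) (m a)) * ∏ l, y l (i l) =
        (∏ l, (Pi.single (i l) 1 : Fin d → ℝ) (m l) * y l (i l)) * ∏ l : {a // a ∉ C}, x (m l) := by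
    intro i
    rw [h1 (fun l => Pi.single (i l) 1), Finset.prod_mul_distrib]
    ring
  rw [Finset.sum_congr rfl fun i _ => h2 i, ← Finset.sum_mul]
  congr 1
  have h3 : ∀ l : {a // a ∈ C}, ∑ t : Fin d, (Pi.single t 1 : Fin d → ℝ) (m l) * y l t = y l (m l) := by
    intro l
    rw [Finset.sum_eq_single (m l)]
    · rw [Pi.single_eq_same, one_mul]
    · intro t _ ht
      rw [Pi.single_eq_of_ne ht.symm, zero_mul]
    · exact fun h => absurd (Finset.mem_univ _) h
  rw [← Finset.prod_congr rfl fun l _ => h3 l, Finset.prod_univ_sum, Fintype.piFinset_univ]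

theorem ML_ctr {s d : ℕ} (T : (Fin (s + s) → Fin d) → ℝ) (x : Fin d → ℝ) (C : Finset (Fin s))
    (y : {a // a ∈ C} → Fin d → ℝ) :
    ML (ctr T x C) y =
      ML T (Fin.append (fun a => if h : a ∈ C then y ⟨a, h⟩ else x) (fun _ => x)) := by
  unfold ctr ML
  simp only [Finset.sum_mul]
  rw [Finset.sum_comm]
  refine Finset.sum_congr rfl fun k _ => ?_
  rw [prod_append, ← sum_single x C y fun a => k (Fin.castAdd s a), Finset.sum_mul, Finset.mul_sum]
  refine Finset.sum_congr rfl fun i _ => ?_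
  rw [prod_append]
  ring

theorem ctr_le {s d : ℕ} (hs : 1 ≤ s) (hd : 1 ≤ d) {p : ℝ} (hp : 1 ≤ p) {T : (Fin (s + s) → Fin d) → ℝ}
    (hT : IsSymT T) {x : Fin d → ℝ} (hx : pn p x ≤ 1) (C : Finset (Fin s)) :
    ∑ i, ctr T x C i ^ 2 ≤
      3 ^ C.card * (((s + s : ℕ) : ℝ) ^ (s + s) * injNorm p T) ^ 2 *
        (d : ℝ) ^ max 0 (2 * (C.card : ℝ) / p - 1) := by
  have hp0 : 0 < p := lt_of_lt_of_le one_pos hp
  have h := hl_all (ι := {a // a ∈ C}) hd (p := p)
    (K := ((s + s : ℕ) : ℝ) ^ (s + s) * injNorm p T) hp0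
    (mul_nonneg (pow_nonneg (Nat.cast_nonneg _) _) (injNorm_nonneg hp0 T)) (S := ctr T x C) ?_
  · rw [Fintype.card_coe] at h
    exact h
  · intro y hy
    rw [ML_ctr]
    refine ml_le hp (by omega) hT fun j => ?_
    refine Fin.addCases (fun a => ?_) (fun b => ?_) j
    · rw [Fin.append_left]
      split_ifs with h
      · exact hy ⟨a, h⟩
      · exact hx
    · rw [Fin.append_right]
      exact hx

end Pool.Agent.InjB
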