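import Pool.Agent.InjP.Two

/-!
# MP_e7fc82_pr: definitions (helper41)

`ML S y` is the multilinear form of the array `S`, `ctr T u C i` is the partial contraction of a `2s`-tensor: the slots
`a ∈ C` (`C` a set of slots among the first `s`) are filled with basis vectors, all the others with `u`.
`hopE`, `prodV`, `excV`: one species of `q` particles with `N` modes. `bosM`, `bosV`: `s` species.
-/

namespace Pool.Agent.InjB

open Finset MeasureTheory ProbabilityTheory Matrix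
open Pool.Agent.InjP
open Pool.Agent.SymASQ (sg)

/-- the multilinear form of an array -/
def ML {ι : Type} [Fintype ι] [DecidableEq ι] {d : ℕ} (S : (ι → Fin d) → ℝ) (y : ι → Fin d → ℝ) : ℝ :=
  ∑ k : ι → Fin d, S k * ∏ j, y j (k j)

theorem pairing_eq_ML {r d : ℕ} (T : (Fin r → Fin d) → ℝ) (x : Fin d → ℝ) :
    pairing T x = ML T (fun _ => x) := rfl

/-- partial contraction -/
def ctr {s N : ℕ} (T : (Fin (s + s) → Fin N) → ℝ) (u : Fin N → ℝ) (C : Finset (Fin s))
    (i : {a // a ∈ C} → Fin N) : ℝ :=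
  ML T (Fin.append (fun a => if h : a ∈ C then Pi.single (i ⟨a, h⟩) 1 else u) (fun _ => u))

/-- replaces the mode `k` of one of the `q` particles by `j` -/
def hopE {q N : ℕ} (j k : Fin N) : Matrix (Fin q → Fin N) (Fin q → Fin N) ℝ :=
  Matrix.of fun α β => ∑ b : Fin q,
    if α b = j ∧ β b = k ∧ ∀ b', b' ≠ b → α b' = β b' then (1 : ℝ) else 0

/-- all particles in the state `u` -/
def prodV {q N : ℕ} (u : Fin N → ℝ) : (Fin q → Fin N) → ℝ := fun α => ∏ b, u (α b)

/-- one particle in the mode `j`, all the others in the state `u` -/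
def excV {q N : ℕ} (u : Fin N → ℝ) (j : Fin N) : (Fin q → Fin N) → ℝ :=
  fun α => ∑ b, if α b = j then ∏ b' ∈ univ.erase b, u (α b') else 0

/-- the operator of a `2s`-tensor on `s` species of `q` particles -/
def bosM {s N : ℕ} (q : ℕ) (T : (Fin (s + s) → Fin N) → ℝ) :
    Matrix (Fin s → Fin q → Fin N) (Fin s → Fin q → Fin N) ℝ :=
  Matrix.of fun φ φ' => ∑ j : Fin s → Fin N, ∑ k : Fin s → Fin N,
    T (Fin.append j k) * ∏ a, hopE (j a) (k a) (φ a) (φ' a)

/-- all particles of all species in the state `u` -/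
def bosV {N : ℕ} (s q : ℕ) (u : Fin N → ℝ) : (Fin s → Fin q → Fin N) → ℝ :=
  fun φ => ∏ a, prodV u (φ a)

/-- extension by zero to one more mode -/
def extT {r d : ℕ} (T : (Fin r → Fin d) → ℝ) : (Fin r → Fin (d + 1)) → ℝ :=
  fun k => if h : ∀ j, k j ≠ Fin.last d then T (fun j => (k j).castPred (h j)) else 0

/-- the vector `(v x, sqrt (1 - v ^ 2 |x| ^ 2))` -/
noncomputable def extV {d : ℕ} (v : ℝ) (x : Fin d → ℝ) : Fin (d + 1) → ℝ :=
  Fin.snoc (fun t => v * x t) (Real.sqrt (1 - v ^ 2 * ∑ t, x t ^ 2))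

/-- the symmetric tensor of `x_last * T (x)` -/
noncomputable def multT {r d : ℕ} (T : (Fin r → Fin d) → ℝ) : (Fin (r + 1) → Fin (d + 1)) → ℝ :=
  fun k => ((r : ℝ) + 1)⁻¹ * ∑ j : Fin (r + 1), if k j = Fin.last d then extT T (fun l => k (j.succAbove l)) else 0

/-- the inequality with the power `d ^ (1 / 2 - 1 / P)` -/
def StarE (r : ℕ) (p P : ℝ) : Prop :=
  ∃ C k : ℝ, 0 ≤ C ∧ 0 ≤ k ∧ ∀ d n : ℕ, 1 ≤ d → 1 ≤ n →
    ∀ T : Fin n → (Fin r → Fin d) → ℝ, (∀ i, IsSymT (T i)) →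
      Integrable (fun g : Fin n → ℝ => injNorm p (∑ i, g i • T i)) (gauss n) ∧
      ∫ g : Fin n → ℝ, injNorm p (∑ i, g i • T i) ∂gauss n
        ≤ C * Real.log (Real.exp 1 * d * n) ^ k * (d : ℝ) ^ (1 / 2 - 1 / P)
          * Real.sqrt (∑ i, injNorm p (T i) ^ 2)

theorem StarE_self (r : ℕ) (p : ℝ) : StarE r p p ↔ Star r p := Iff.rfl

end Pool.Agent.InjB
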