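import Pool.Agent.InjB.Defs

/-!
# MP_e7fc82_pr, module Ext: one more mode (helper41)

`ML_extT`: only the `k` with all `k j ≠ Fin.last d` contribute (`Fin.castSucc`). `ctr_ext_sum`: if some `i a = Fin.last d` then
`ctr (extT T) u C i = 0` by `ML_extT` (the slot `a` is filled with `Pi.single (Fin.last d) 1`, zero on `castSucc`); otherwise
`i = castSucc ∘ i'` and `ML_extT` gives `ML T` of the family with `v • x` in the `2s - |C|` other slots:
`v ^ (2 s - |C|) * ctr T x C i'`. `extV_sq`: `∑ = v ^ 2 |x| ^ 2 + (1 - v ^ 2 |x| ^ 2)`.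
-/

namespace Pool.Agent.InjB

open Finset MeasureTheory ProbabilityTheory Matrix
open Pool.Agent.InjP
open Pool.Agent.SymASQ (sg)

theorem Ext_pos {r d : ℕ} (T : (Fin r → Fin d) → ℝ) {k : Fin r → Fin (d + 1)} (h : ∀ j, k j ≠ Fin.last d) :
    extT T k = T (fun j => (k j).castPred (h j)) := by
  unfold extT
  rw [dif_pos h]

theorem Ext_neg {r d : ℕ} (T : (Fin r → Fin d) → ℝ) {k : Fin r → Fin (d + 1)} (h : ¬ ∀ j, k j ≠ Fin.last d) :
    extT T k = 0 := by
  unfold extT
  rw [dif_neg h]

theorem Ext_cs {r d : ℕ} (T : (Fin r → Fin d) → ℝ) (k : Fin r → Fin d) :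
    extT T (fun j => (k j).castSucc) = T k := by
  rw [Ext_pos T (fun j => Fin.castSucc_ne_last (k j))]
  rfl

theorem extT_sym {r d : ℕ} {T : (Fin r → Fin d) → ℝ} (hT : IsSymT T) : IsSymT (extT T) := by
  intro σ k
  by_cases h : ∀ j, k j ≠ Fin.last d
  · have h1 : ∀ j, (k ∘ σ) j ≠ Fin.last d := fun j => h (σ j)
    rw [Ext_pos T h, Ext_pos T h1]
    exact hT σ (fun j => (k j).castPred (h j))
  · rw [Ext_neg T h, Ext_neg T]
    intro h1
    apply h
    intro j
    have h2 := h1 (σ.symm j)
    rw [Function.comp_apply, Equiv.apply_symm_apply] at h2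
    exact h2

theorem ML_extT {r d : ℕ} (T : (Fin r → Fin d) → ℝ) (y : Fin r → Fin (d + 1) → ℝ) :
    ML (extT T) y = ML T (fun j t => y j t.castSucc) := by
  unfold ML
  symm
  refine Fintype.sum_of_injective (fun (k' : Fin r → Fin d) (j : Fin r) => (k' j).castSucc) ?_ _ _ ?_ ?_
  · intro k1 k2 h
    funext j
    exact Fin.castSucc_injective d (congrFun h j)
  · intro k hk
    rw [Ext_neg T, zero_mul]
    intro h
    apply hk
    refine ⟨fun j => (k j).castPred (h j), ?_⟩
    funext j
    exact Fin.castSucc_castPred (k j) (h j)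
  · intro k'
    rw [Ext_cs]

theorem Ext_ML_smul {ι : Type} [Fintype ι] [DecidableEq ι] {d : ℕ} (T : (ι → Fin d) → ℝ) (c : ι → ℝ)
    (y : ι → Fin d → ℝ) : ML T (fun j t => c j * y j t) = (∏ j, c j) * ML T y := by
  unfold ML
  rw [Finset.mul_sum]
  refine Finset.sum_congr rfl fun k _ => ?_
  rw [Finset.prod_mul_distrib]
  ring

theorem Ext_V {d : ℕ} (v : ℝ) (x : Fin d → ℝ) (t : Fin d) : extV v x t.castSucc = v * x t := by
  unfold extV
  rw [Fin.snoc_castSucc]

theorem extV_sq {d : ℕ} {v : ℝ} {x : Fin d → ℝ} (h : v ^ 2 * ∑ t, x t ^ 2 ≤ 1) :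
    ∑ i, extV v x i ^ 2 = 1 := by
  rw [Fin.sum_univ_castSucc]
  have h1 : extV v x (Fin.last d) = Real.sqrt (1 - v ^ 2 * ∑ t, x t ^ 2) := by
    unfold extV
    rw [Fin.snoc_last]
  rw [h1, Real.sq_sqrt (by linarith)]
  have h2 : ∑ t : Fin d, extV v x t.castSucc ^ 2 = v ^ 2 * ∑ t, x t ^ 2 := by
    rw [Finset.mul_sum]
    refine Finset.sum_congr rfl fun t _ => ?_
    rw [Ext_V]
    ring
  rw [h2]
  ring

theorem pairing_ext {r d : ℕ} (T : (Fin r → Fin d) → ℝ) (v : ℝ) (x : Fin d → ℝ) :
    pairing (extT T) (extV v x) = v ^ r * pairing T x := by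
  rw [pairing_eq_ML, pairing_eq_ML, ML_extT]
  have h1 : (fun (_ : Fin r) (t : Fin d) => extV v x t.castSucc) = fun j t => (fun _ : Fin r => v) j * x t := by
    funext j t
    exact Ext_V v x t
  rw [h1, Ext_ML_smul T (fun _ => v) (fun _ => x), Finset.prod_const, Finset.card_univ, Fintype.card_fin]

theorem ctr_ext_sum {s d : ℕ} (T : (Fin (s + s) → Fin d) → ℝ) (v : ℝ) (x : Fin d → ℝ)
    (C : Finset (Fin s)) :
    ∑ i, ctr (extT T) (extV v x) C i ^ 2 = (v ^ 2) ^ (2 * s - C.card) * ∑ i, ctr T x C i ^ 2 := by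
  rw [Finset.mul_sum]
  symm
  refine Fintype.sum_of_injective (fun (i' : {a // a ∈ C} → Fin d) (a : {a // a ∈ C}) => (i' a).castSucc)
    ?_ _ _ ?_ ?_
  · intro k1 k2 h
    funext j
    exact Fin.castSucc_injective d (congrFun h j)
  · intro i hi
    have h1 : ¬ ∀ a, i a ≠ Fin.last d := by
      intro h
      apply hi
      refine ⟨fun j => (i j).castPred (h j), ?_⟩
      funext j
      exact Fin.castSucc_castPred (i j) (h j)
    push Not at h1
    obtain ⟨a, ha⟩ := h1
    have h2 : ctr (extT T) (extV v x) C i = 0 := by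
      unfold ctr
      rw [ML_extT]
      unfold ML
      refine Finset.sum_eq_zero fun k _ => ?_
      rw [Finset.prod_eq_zero (Finset.mem_univ (Fin.castAdd s a.1)), mul_zero]
      show (Fin.append (fun a => if h : a ∈ C then Pi.single (i ⟨a, h⟩) 1 else extV v x) (fun _ => extV v x) :
        Fin (s + s) → Fin (d + 1) → ℝ) (Fin.castAdd s a.1) (k (Fin.castAdd s a.1)).castSucc = 0
      rw [Fin.append_left, dif_pos a.2, ha, Pi.single_eq_of_ne (Fin.castSucc_ne_last _)]
    rw [h2]
    ring
  · intro i'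
    have h1 : ctr (extT T) (extV v x) C (fun a => (i' a).castSucc) = v ^ (2 * s - C.card) * ctr T x C i' := by
      unfold ctr
      rw [ML_extT]
      have h2 : (fun (j : Fin (s + s)) (t : Fin d) => (Fin.append (fun a => if h : a ∈ C then
          Pi.single ((i' ⟨a, h⟩).castSucc) 1 else extV v x) (fun _ => extV v x) : Fin (s + s) →
            Fin (d + 1) → ℝ) j t.castSucc) =
          fun j t => (Fin.append (fun a => if a ∈ C then (1 : ℝ) else v) (fun _ => v) : Fin (s + s) → ℝ) j *
            (Fin.append (fun a => if h : a ∈ C then Pi.single (i' ⟨a, h⟩) 1 else x) (fun _ => x) :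
              Fin (s + s) → Fin d → ℝ) j t := by
        funext j t
        refine Fin.addCases (fun a => ?_) (fun a => ?_) j
        · rw [Fin.append_left, Fin.append_left, Fin.append_left]
          by_cases ha : a ∈ C
          · rw [dif_pos ha, if_pos ha, dif_pos ha, one_mul]
            by_cases ht : t = i' ⟨a, ha⟩
            · rw [ht, Pi.single_eq_same, Pi.single_eq_same]
            · rw [Pi.single_eq_of_ne ht, Pi.single_eq_of_ne (fun h => ht (Fin.castSucc_injective d h))]
          · rw [dif_neg ha, if_neg ha, dif_neg ha, Ext_V]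
        · rw [Fin.append_right, Fin.append_right, Fin.append_right, Ext_V]
      rw [h2, Ext_ML_smul]
      congr 1
      rw [Fin.prod_univ_add]
      simp only [Fin.append_left, Fin.append_right]
      rw [Finset.prod_const, Finset.card_univ, Fintype.card_fin, Finset.prod_ite, Finset.prod_const_one, one_mul,
        Finset.prod_const, ← pow_add]
      congr 1
      have h3 : (Finset.univ.filter fun a : Fin s => a ∉ C).card = s - C.card := by
        have h4 : (Finset.univ.filter fun a : Fin s => a ∉ C) = Cᶜ := by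
          ext a
          simp
        rw [h4, Finset.card_compl, Fintype.card_fin]
      have h5 : C.card ≤ s := by
        have h6 := Finset.card_le_univ C
        rwa [Fintype.card_fin] at h6
      rw [h3]
      omega
    show (v ^ 2) ^ (2 * s - C.card) * ctr T x C i' ^ 2 =
      ctr (extT T) (extV v x) C (fun a => (i' a).castSucc) ^ 2
    rw [h1]
    ring

theorem extT_sum {n r d : ℕ} (T : Fin n → (Fin r → Fin d) → ℝ) (g : Fin n → ℝ) :
    extT (∑ i, g i • T i) = ∑ i, g i • extT (T i) := by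
  funext k
  rw [Finset.sum_apply]
  by_cases h : ∀ j, k j ≠ Fin.last d
  · rw [Ext_pos _ h, Finset.sum_apply]
    refine Finset.sum_congr rfl fun i _ => ?_
    rw [Pi.smul_apply, Pi.smul_apply, Ext_pos _ h]
  · rw [Ext_neg _ h]
    symm
    refine Finset.sum_eq_zero fun i _ => ?_
    rw [Pi.smul_apply, Ext_neg _ h, smul_zero]

end Pool.Agent.InjB
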