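import Pool.Agent.InjB.Defs

/-!
# MP_e7fc82_pr, module Gau: from random signs to Gaussian variables (helper41)

Copy the proof of `explicit_bound` in InjP/Two.lean (it uses `sum_sign_le` only through the inequality `h`; `r ≠ 0` is enough for
`integrable_injNorm`, `continuous_injNorm`, `injNorm_sum_le`).
-/

namespace Pool.Agent.InjB

open Finset MeasureTheory ProbabilityTheory Matrix
open Pool.Agent.InjP
open Pool.Agent.SymASQ (sg)

theorem gauss_of_rad {r d n : ℕ} {p : ℝ} (hp : 0 < p) (hr : r ≠ 0) (T : Fin n → (Fin r → Fin d) → ℝ)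
    {c : ℝ} (hc : 0 ≤ c)
    (h : ∀ g : Fin n → ℝ, ∑ e : Fin n → Bool, injNorm p (∑ i, (sg (e i) * g i) • T i) ≤
      2 ^ n * (c * Real.sqrt (∑ i, (|g i| * injNorm p (T i)) ^ 2))) :
    ∫ g : Fin n → ℝ, injNorm p (∑ i, g i • T i) ∂gauss n ≤
      c * Real.sqrt (∑ i, injNorm p (T i) ^ 2) := by
  set A : ℝ := Real.sqrt (∑ i, injNorm p (T i) ^ 2) with hA
  have hA2 : A ^ 2 = ∑ i, injNorm p (T i) ^ 2 :=
    Real.sq_sqrt (Finset.sum_nonneg fun _ _ => sq_nonneg _)
  set F : (Fin n → ℝ) → ℝ := fun g => injNorm p (∑ i, g i • T i) with hF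
  have hFi : Integrable F (gauss n) := integrable_injNorm hp hr T
  have hFc : Continuous F := continuous_injNorm hp hr T
  -- symmetrisation
  have hsym : ∀ e : Fin n → Bool, ∫ g, F (fun i => sg (e i) * g i) ∂gauss n = ∫ g, F g ∂gauss n := by
    intro e
    have h := measurePreserving_sign (n := n) e
    have h' := integral_map (μ := gauss n) (φ := fun g : Fin n → ℝ => fun i => sg (e i) * g i)
      h.measurable.aemeasurable (f := F) hFc.aestronglyMeasurable
    rw [h.map_eq] at h'
    exact h'.symm
  have hsymi : ∀ e : Fin n → Bool, Integrable (fun g : Fin n → ℝ => F (fun i => sg (e i) * g i))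
      (gauss n) := by
    intro e
    have h := measurePreserving_sign (n := n) e
    exact h.integrable_comp_of_integrable hFi
  have h1 : 2 ^ n * ∫ g, F g ∂gauss n = ∫ g, ∑ e : Fin n → Bool, F (fun i => sg (e i) * g i)
      ∂gauss n := by
    rw [integral_finsetSum _ fun e _ => hsymi e, Finset.sum_congr rfl fun e _ => hsym e]
    simp
  rcases eq_or_lt_of_le (Real.sqrt_nonneg (∑ i, injNorm p (T i) ^ 2)) with h0 | h0
  · -- degenerate case
    rw [← hA] at h0
    rw [← h0] at hA2
    have h2 : ∑ i, injNorm p (T i) ^ 2 = 0 := by rw [← hA2]; norm_num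
    have hz : ∀ i, injNorm p (T i) = 0 := fun i => by
      have := (Finset.sum_eq_zero_iff_of_nonneg (fun i _ => sq_nonneg (injNorm p (T i)))).1 h2 i
        (Finset.mem_univ i)
      exact pow_eq_zero_iff (two_ne_zero) |>.1 this
    rw [← h0, mul_zero]
    refine le_of_eq ?_
    have : ∀ g, F g = 0 := by
      intro g
      have h3 := injNorm_sum_le hp hr T g
      simp only [hz, mul_zero, Finset.sum_const_zero] at h3
      exact le_antisymm h3 (injNorm_nonneg hp _)
    change ∫ g, F g ∂gauss n = 0
    simp only [this, integral_zero]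
  rw [← hA] at h0
  have hbi : Integrable (fun g : Fin n → ℝ =>
      2 ^ n * (c * (((∑ i, g i ^ 2 * injNorm p (T i) ^ 2) / A + A) / 2))) (gauss n) := by
    refine Integrable.const_mul (Integrable.const_mul (Integrable.div_const (Integrable.add
      (Integrable.div_const (integrable_finsetSum _ fun i _ =>
        (integrable_eval_sq i).mul_const _) _) (integrable_const _)) _) _) _
  have h2 : ∫ g, ∑ e : Fin n → Bool, F (fun i => sg (e i) * g i) ∂gauss n
      ≤ ∫ g, 2 ^ n * (c * (((∑ i, g i ^ 2 * injNorm p (T i) ^ 2) / A + A) / 2)) ∂gauss n := by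
    refine integral_mono (integrable_finsetSum _ fun e _ => hsymi e) hbi fun g => ?_
    refine (h g).trans ?_
    refine mul_le_mul_of_nonneg_left (mul_le_mul_of_nonneg_left ?_ hc) (by positivity)
    have e1 : ∑ i, (|g i| * injNorm p (T i)) ^ 2 = ∑ i, g i ^ 2 * injNorm p (T i) ^ 2 :=
      Finset.sum_congr rfl fun i _ => by rw [mul_pow, sq_abs]
    rw [e1]
    set Y := ∑ i, g i ^ 2 * injNorm p (T i) ^ 2 with hY
    have hY0 : 0 ≤ Y := Finset.sum_nonneg fun _ _ => by positivity
    have h3 : Real.sqrt Y ^ 2 = Y := Real.sq_sqrt hY0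
    rw [le_div_iff₀ (by norm_num), div_add' _ _ _ h0.ne', le_div_iff₀ h0]
    nlinarith [sq_nonneg (Real.sqrt Y - A)]
  have h4 : ∫ g, 2 ^ n * (c * (((∑ i, g i ^ 2 * injNorm p (T i) ^ 2) / A + A) / 2)) ∂gauss n
      = 2 ^ n * (c * A) := by
    rw [integral_const_mul, integral_const_mul, integral_div, integral_add, integral_div,
      integral_finsetSum]
    · simp only [integral_mul_const, integral_eval_sq, one_mul, integral_const,
        probReal_univ, smul_eq_mul]
      rw [← hA2]
      field_simp
      ring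
    · exact fun i _ => (integrable_eval_sq i).mul_const _
    · exact Integrable.div_const (integrable_finsetSum _ fun i _ =>
        (integrable_eval_sq i).mul_const _) _
    · exact integrable_const _
  have h5 : 2 ^ n * ∫ g, F g ∂gauss n ≤ 2 ^ n * (c * A) := by
    rw [h1]; exact h2.trans (le_of_eq h4)
  exact le_of_mul_le_mul_left h5 (by positivity)

end Pool.Agent.InjB
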