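import Pool.Agent.InjB.Odd1

/-!
# MP_e7fc82_pr, module Odd, second half (helper44)

`injNorm_multT_le`: `|x_last| ≤ pn p x`, `pn p (fun t => x t.castSucc) ≤ pn p x`. `injNorm_le_multT`: for `pn p x ≤ 1` the
vector `x' = (x / 2, 1 / 2)` has `pn p x' ≤ 1` and `pairing (multT T) x' = 2 ^ (-(r + 1)) * pairing T x`. `starE_pred`: the
inequality for `r + 1` and `multT (T i)` in dimension `d + 1 ≤ 2 d`.
-/

namespace Pool.Agent.InjB

open Finset MeasureTheory ProbabilityTheory Matrix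
open Pool.Agent.InjP
open Pool.Agent.SymASQ (sg)



private lemma Odd_pn_castSucc {d : ℕ} {p : ℝ} (hp : 0 < p) (x : Fin (d + 1) → ℝ) :
    pn p (fun t : Fin d => x t.castSucc) ≤ pn p x := by
  unfold pn
  refine Real.rpow_le_rpow (Finset.sum_nonneg fun i _ => Real.rpow_nonneg (abs_nonneg _) _) ?_
    (by positivity)
  rw [Fin.sum_univ_castSucc]
  have : 0 ≤ |x (Fin.last d)| ^ p := Real.rpow_nonneg (abs_nonneg _) _
  linarith

theorem injNorm_multT_le {r d : ℕ} {p : ℝ} (hp : 1 ≤ p) (hr : r ≠ 0) (T : (Fin r → Fin d) → ℝ) :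
    injNorm p (multT T) ≤ injNorm p T := by
  have hp0 : 0 < p := by linarith
  refine injNorm_le hp0 (injNorm_nonneg hp0 T) fun x => ?_
  rw [pairing_multT, abs_mul, pow_succ]
  have h1 : |x (Fin.last d)| ≤ pn p x := abs_le_pn hp0 x _
  have h2 := pairing_le hp0 hr T (fun t => x t.castSucc)
  have h3 : pn p (fun t : Fin d => x t.castSucc) ^ r ≤ pn p x ^ r :=
    pow_le_pow_left₀ (pn_nonneg p _) (Odd_pn_castSucc hp0 x) r
  have h4 : |pairing T (fun t => x t.castSucc)| ≤ injNorm p T * pn p x ^ r :=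
    h2.trans (mul_le_mul_of_nonneg_left h3 (injNorm_nonneg hp0 T))
  calc |x (Fin.last d)| * |pairing T (fun t => x t.castSucc)|
      ≤ pn p x * (injNorm p T * pn p x ^ r) :=
        mul_le_mul h1 h4 (abs_nonneg _) (pn_nonneg p x)
    _ = injNorm p T * (pn p x ^ r * pn p x) := by ring

private lemma Odd_half {d : ℕ} {p : ℝ} (hp : 1 ≤ p) {x : Fin d → ℝ} (hx : pn p x ≤ 1) :
    pn p (Fin.snoc (fun t => 1 / 2 * x t) (1 / 2) : Fin (d + 1) → ℝ) ≤ 1 := by
  have hp0 : 0 < p := by linarith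
  have hs0 : 0 ≤ ∑ i, |x i| ^ p :=
    Finset.sum_nonneg fun i _ => Real.rpow_nonneg (abs_nonneg _) _
  have hs : ∑ i, |x i| ^ p ≤ 1 := by
    by_contra hcon
    push Not at hcon
    have : (1 : ℝ) < (∑ i, |x i| ^ p) ^ (1 / p) := Real.one_lt_rpow hcon (by positivity)
    exact absurd hx (not_le.2 this)
  have hh : ((1 : ℝ) / 2) ^ p ≤ 1 / 2 := by
    calc ((1 : ℝ) / 2) ^ p ≤ ((1 : ℝ) / 2) ^ (1 : ℝ) :=
          Real.rpow_le_rpow_of_exponent_ge (by norm_num) (by norm_num) hp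
      _ = 1 / 2 := Real.rpow_one _
  have hh0 : 0 ≤ ((1 : ℝ) / 2) ^ p := Real.rpow_nonneg (by norm_num) _
  have hsum : ∑ i, |(Fin.snoc (fun t => 1 / 2 * x t) (1 / 2) : Fin (d + 1) → ℝ) i| ^ p ≤ 1 := by
    rw [Fin.sum_univ_castSucc]
    simp only [Fin.snoc_castSucc, Fin.snoc_last]
    have e : ∀ t, |1 / 2 * x t| ^ p = ((1 : ℝ) / 2) ^ p * |x t| ^ p := by
      intro t
      rw [abs_mul, abs_of_pos (by norm_num : (0 : ℝ) < 1 / 2),
        Real.mul_rpow (by norm_num) (abs_nonneg _)]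
    rw [Finset.sum_congr rfl fun t _ => e t, ← Finset.mul_sum,
      abs_of_pos (by norm_num : (0 : ℝ) < 1 / 2)]
    have h1 : ((1 : ℝ) / 2) ^ p * ∑ i, |x i| ^ p ≤ ((1 : ℝ) / 2) ^ p * 1 :=
      mul_le_mul_of_nonneg_left hs hh0
    linarith
  unfold pn
  exact Real.rpow_le_one (Finset.sum_nonneg fun i _ => Real.rpow_nonneg (abs_nonneg _) _) hsum
    (by positivity)

theorem injNorm_le_multT {r d : ℕ} {p : ℝ} (hp : 1 ≤ p) (hr : r ≠ 0) (T : (Fin r → Fin d) → ℝ) :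
    injNorm p T ≤ 2 ^ (r + 1) * injNorm p (multT T) := by
  have hp0 : 0 < p := by linarith
  refine csSup_le ⟨_, 0, by rw [pn_zero hp0]; exact zero_le_one, rfl⟩ ?_
  rintro _ ⟨x, hx, rfl⟩
  have h1 := le_injNorm_of hp0 (multT T) (Odd_half hp hx)
  rw [pairing_multT] at h1
  simp only [Fin.snoc_castSucc, Fin.snoc_last] at h1
  have e1 : pairing T (fun t => 1 / 2 * x t) = (1 / 2) ^ r * pairing T x := by
    have := pairing_smul_right T (1 / 2) x
    rw [← this]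
    rfl
  rw [e1, abs_mul, abs_mul, abs_of_pos (by norm_num : (0 : ℝ) < 1 / 2),
    abs_of_pos (by positivity : (0 : ℝ) < (1 / 2) ^ r)] at h1
  have h2 := mul_le_mul_of_nonneg_left h1 (by positivity : (0 : ℝ) ≤ 2 ^ (r + 1))
  refine le_trans (le_of_eq ?_) h2
  rw [pow_succ]
  have e2 : (2 : ℝ) ^ r * (1 / 2) ^ r = 1 := by rw [← mul_pow]; norm_num
  calc |pairing T x| = ((2 : ℝ) ^ r * (1 / 2) ^ r) * |pairing T x| := by rw [e2, one_mul]
    _ = _ := by ring

/-- the reduction: the inequality for `r + 1` implies the inequality for `r` -/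
theorem starE_pred {r : ℕ} (hr : r ≠ 0) {p P : ℝ} (hp : 1 ≤ p) (hP : 2 ≤ P) (h : StarE (r + 1) p P) :
    StarE r p P := by
  obtain ⟨C, k, hC, hk, h⟩ := h
  have hp0 : 0 < p := by linarith
  have hE : 0 ≤ 1 / 2 - 1 / P := by
    have : 1 / P ≤ 1 / 2 := one_div_le_one_div_of_le (by norm_num) hP
    linarith
  refine ⟨2 ^ (r + 1) * C * 2 ^ k * 2 ^ (1 / 2 - 1 / P), k, by positivity, hk, ?_⟩
  intro d n hd hn T hT
  refine ⟨integrable_injNorm hp0 hr T, ?_⟩
  have hd1 : (1 : ℝ) ≤ d := by exact_mod_cast hd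
  have hn1 : (1 : ℝ) ≤ n := by exact_mod_cast hn
  obtain ⟨hi, hb⟩ := h (d + 1) n (by omega) hn (fun i => multT (T i)) (fun i => multT_sym (hT i))
  -- the integral
  have h1 : ∫ g : Fin n → ℝ, injNorm p (∑ i, g i • T i) ∂gauss n
      ≤ 2 ^ (r + 1) * ∫ g : Fin n → ℝ, injNorm p (∑ i, g i • multT (T i)) ∂gauss n := by
    rw [← integral_const_mul]
    refine integral_mono (integrable_injNorm hp0 hr T) (hi.const_mul _) fun g => ?_
    change injNorm p (∑ i, g i • T i) ≤ 2 ^ (r + 1) * injNorm p (∑ i, g i • multT (T i))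
    rw [← multT_sum]
    exact injNorm_le_multT hp hr _
  -- the logarithm
  have hL : 1 ≤ Real.log (Real.exp 1 * d * n) := by
    rw [Real.le_log_iff_exp_le (by positivity)]
    have : (1 : ℝ) ≤ d * n := one_le_mul_of_one_le_of_one_le hd1 hn1
    calc Real.exp 1 = Real.exp 1 * 1 := (mul_one _).symm
      _ ≤ Real.exp 1 * (d * n) := mul_le_mul_of_nonneg_left this (Real.exp_pos 1).le
      _ = Real.exp 1 * d * n := by ring
  have hL0 : 0 ≤ Real.log (Real.exp 1 * ((d + 1 : ℕ) : ℝ) * n) := by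
    apply Real.log_nonneg
    push_cast
    have he : (1 : ℝ) ≤ Real.exp 1 := Real.one_le_exp (by norm_num)
    exact one_le_mul_of_one_le_of_one_le
      (one_le_mul_of_one_le_of_one_le he (by linarith)) hn1
  have hL2 : Real.log (Real.exp 1 * ((d + 1 : ℕ) : ℝ) * n)
      ≤ 2 * Real.log (Real.exp 1 * d * n) := by
    have e1 : Real.log (Real.exp 1 * ((d + 1 : ℕ) : ℝ) * n)
        ≤ Real.log (2 * (Real.exp 1 * d * n)) := by
      apply Real.log_le_log (by positivity)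
      push_cast
      have : Real.exp 1 * ((d : ℝ) + 1) * n ≤ Real.exp 1 * (2 * d) * n := by
        have : (d : ℝ) + 1 ≤ 2 * d := by linarith
        gcongr
      linarith
    have e2 : Real.log (2 * (Real.exp 1 * d * n))
        = Real.log 2 + Real.log (Real.exp 1 * d * n) :=
      Real.log_mul (by norm_num) (by positivity)
    have e3 : Real.log 2 ≤ 1 := by
      have := Real.log_two_lt_d9
      linarith
    linarith
  have h2 : Real.log (Real.exp 1 * ((d + 1 : ℕ) : ℝ) * n) ^ k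
      ≤ 2 ^ k * Real.log (Real.exp 1 * d * n) ^ k := by
    rw [← Real.mul_rpow (by norm_num) (by linarith)]
    exact Real.rpow_le_rpow hL0 hL2 hk
  have h3 : (((d + 1 : ℕ) : ℝ)) ^ (1 / 2 - 1 / P) ≤ 2 ^ (1 / 2 - 1 / P) * (d : ℝ) ^ (1 / 2 - 1 / P) := by
    rw [← Real.mul_rpow (by norm_num) (by positivity)]
    refine Real.rpow_le_rpow (by positivity) ?_ hE
    push_cast
    linarith
  have h4 : Real.sqrt (∑ i, injNorm p (multT (T i)) ^ 2) ≤ Real.sqrt (∑ i, injNorm p (T i) ^ 2) := by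
    apply Real.sqrt_le_sqrt
    refine Finset.sum_le_sum fun i _ => ?_
    exact pow_le_pow_left₀ (injNorm_nonneg hp0 _) (injNorm_multT_le hp hr _) 2
  have hLk : 0 ≤ Real.log (Real.exp 1 * d * n) ^ k := Real.rpow_nonneg (by linarith) _
  calc ∫ g : Fin n → ℝ, injNorm p (∑ i, g i • T i) ∂gauss n
      ≤ 2 ^ (r + 1) * ∫ g : Fin n → ℝ, injNorm p (∑ i, g i • multT (T i)) ∂gauss n := h1
    _ ≤ 2 ^ (r + 1) * (C * Real.log (Real.exp 1 * ((d + 1 : ℕ) : ℝ) * n) ^ k
          * (((d + 1 : ℕ) : ℝ)) ^ (1 / 2 - 1 / P) * Real.sqrt (∑ i, injNorm p (multT (T i)) ^ 2)) :=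
        mul_le_mul_of_nonneg_left hb (by positivity)
    _ ≤ 2 ^ (r + 1) * (C * (2 ^ k * Real.log (Real.exp 1 * d * n) ^ k)
          * (2 ^ (1 / 2 - 1 / P) * (d : ℝ) ^ (1 / 2 - 1 / P))
          * Real.sqrt (∑ i, injNorm p (T i) ^ 2)) := by
        gcongr
    _ = _ := by ring

end Pool.Agent.InjB
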