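import Pool.Agent.InjB.Rad
import Pool.Agent.InjB.Gau
import Pool.Agent.InjB.Odd

/-!
# MP_e7fc82_pr, module Fin: the theorem (helper41)
-/

namespace Pool.Agent.InjB

open Finset MeasureTheory ProbabilityTheory Matrix
open Pool.Agent.InjP
open Pool.Agent.SymASQ (sg)

lemma pairing_smul_left {r d : ℕ} (c : ℝ) (T : (Fin r → Fin d) → ℝ) (x : Fin d → ℝ) :
    pairing (c • T) x = c * pairing T x := by
  unfold pairing
  rw [Finset.mul_sum]
  refine Finset.sum_congr rfl fun k _ => ?_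
  simp only [Pi.smul_apply, smul_eq_mul]
  ring

lemma injNorm_smul_le {r d : ℕ} {p : ℝ} (hp : 0 < p) (hr : r ≠ 0) (c : ℝ) (T : (Fin r → Fin d) → ℝ) :
    injNorm p (c • T) ≤ |c| * injNorm p T := by
  refine injNorm_le hp (mul_nonneg (abs_nonneg _) (injNorm_nonneg hp _)) fun x => ?_
  rw [pairing_smul_left, abs_mul, mul_assoc]
  exact mul_le_mul_of_nonneg_left (pairing_le hp hr _ _) (abs_nonneg _)

lemma log_le' {d n : ℕ} (hd : 1 ≤ d) (hn : 1 ≤ n) :
    Real.sqrt (1 + Real.log d) ≤ Real.log (Real.exp 1 * d * n) ^ (1 / 2 : ℝ) := by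
  have hd1 : (1 : ℝ) ≤ d := by exact_mod_cast hd
  have hn1 : (1 : ℝ) ≤ n := by exact_mod_cast hn
  have h1 : 1 + Real.log d ≤ Real.log (Real.exp 1 * d * n) := by
    rw [Real.log_mul (by positivity) (by positivity), Real.log_mul (by positivity) (by positivity),
      Real.log_exp]
    have := Real.log_nonneg hn1
    linarith
  rw [← Real.sqrt_eq_rpow]
  exact Real.sqrt_le_sqrt h1

theorem starE_even {s : ℕ} (hs : 1 ≤ s) {p : ℝ} (hp : 2 ≤ p) :
    StarE (s + s) p (max p (s + s : ℕ)) := by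
  have hp0 : 0 < p := by linarith
  have hss : s + s ≠ 0 := by omega
  refine ⟨100 * 6 ^ s * ((s + s : ℕ) : ℝ) ^ (s + s + 1), 1 / 2, by positivity, by norm_num,
    fun d n hd hn T hT => ⟨integrable_injNorm hp0 hss T, ?_⟩⟩
  have h1 := gauss_of_rad hp0 hss T
    (c := (100 * 6 ^ s * ((s + s : ℕ) : ℝ) ^ (s + s + 1)) * Real.sqrt (1 + Real.log d) *
        (d : ℝ) ^ (1 / 2 - 1 / max p (s + s : ℕ))) (by positivity) ?_
  · refine h1.trans ?_
    have := log_le' hd hn
    gcongr
  · intro g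
    have h2 := rad_even hs hd hp (T := fun i => g i • T i)
      (fun i σ k => by simp only [Pi.smul_apply, hT i σ k])
    simp only [smul_smul] at h2
    refine h2.trans ?_
    have h3 : ∑ i, injNorm p (g i • T i) ^ 2 ≤ ∑ i, (|g i| * injNorm p (T i)) ^ 2 :=
      Finset.sum_le_sum fun i _ => pow_le_pow_left₀ (injNorm_nonneg hp0 _)
        (injNorm_smul_le hp0 hss _ _) 2
    have h4 := Real.sqrt_le_sqrt h3
    gcongr

theorem starE_all {r : ℕ} (hr : 1 ≤ r) {p : ℝ} (hp : 2 ≤ p) :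
    StarE r p (max p (2 * ((r + 1) / 2) : ℕ)) := by
  rcases Nat.even_or_odd' r with ⟨s, h | h⟩
  · subst h
    have h1 : 2 * ((2 * s + 1) / 2) = s + s := by omega
    have h2 : 2 * s = s + s := by omega
    rw [h1, h2]
    exact starE_even (by omega) hp
  · subst h
    have h1 : 2 * ((2 * s + 1 + 1) / 2) = (s + 1) + (s + 1) := by omega
    rw [h1]
    refine starE_pred (by omega) (by linarith) (hp.trans (le_max_left _ _)) ?_
    have h2 : 2 * s + 1 + 1 = (s + 1) + (s + 1) := by omega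
    rw [h2]
    exact starE_even (by omega) hp

theorem star_all {r : ℕ} (hr : 1 ≤ r) {p : ℝ} (hp : (2 * ((r + 1) / 2) : ℕ) ≤ p) : Star r p := by
  have h2 : (2 : ℝ) ≤ p := by
    refine le_trans ?_ hp
    have : 2 ≤ 2 * ((r + 1) / 2) := by omega
    exact_mod_cast this
  have h := starE_all hr h2
  rw [max_eq_left hp] at h
  exact (StarE_self r p).1 h

end Pool.Agent.InjB
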