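import Pool.Agent.InjB.Khin

/-!
# MP_e7fc82_pr, module HLa: Hardy-Littlewood inequality: `c`-linear forms on `l_p`, `p ≥ 2c`, are Hilbert-Schmidt
-/

namespace Pool.Agent.InjB

open Finset MeasureTheory ProbabilityTheory Matrix
open Pool.Agent.InjP
open Pool.Agent.SymASQ (sg)

namespace HLa

lemma pn_mono {d : ℕ} {p : ℝ} (hp : 0 < p) {x y : Fin d → ℝ} (h : ∀ t, |x t| ≤ |y t|) : pn p x ≤ pn p y := by
  unfold pn
  apply Real.rpow_le_rpow
  · exact Finset.sum_nonneg (fun t _ => Real.rpow_nonneg (abs_nonneg _) _)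
  · exact Finset.sum_le_sum (fun t _ => Real.rpow_le_rpow (abs_nonneg _) (h t) hp.le)
  · positivity

lemma abs_sg (b : Bool) : |sg b| = 1 := by
  cases b <;> simp [sg]

lemma sg_sq (b : Bool) : sg b * sg b = 1 := by
  cases b <;> simp [sg]

/-- a real sign -/
lemma exists_sign (z : ℝ) : ∃ s : ℝ, |s| ≤ 1 ∧ s * z = |z| := by
  rcases le_or_gt 0 z with h | h
  · exact ⟨1, by simp, by rw [one_mul, abs_of_nonneg h]⟩
  · exact ⟨-1, by simp, by rw [neg_one_mul, abs_of_neg h]⟩

variable {ι : Type} [Fintype ι] [DecidableEq ι] {d : ℕ}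

/-- the form with one slot fixed -/
def Z (S : (ι → Fin d) → ℝ) (w : ι → Fin d → ℝ) (i : ι) (t : Fin d) (ε : ι → Fin d → Bool) : ℝ :=
  ∑ j : ι → Fin d, if j i = t then S j * ∏ l ∈ univ.erase i, (sg (ε l (j l)) * w l (j l)) else 0

/-- the array of the chaos with one slot fixed -/
def S' (S : (ι → Fin d) → ℝ) (w : ι → Fin d → ℝ) (i : ι) (t : Fin d) : (ι → Fin d) → ℝ :=
  fun j => if j i = t then S j * ∏ l ∈ univ.erase i, w l (j l) else 0

lemma ML_S' (S : (ι → Fin d) → ℝ) (w : ι → Fin d → ℝ) (i : ι) (t : Fin d) (ε : ι → Fin d → Bool) :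
    |ML (S' S w i t) (fun l t => sg (ε l t))| = |Z S w i t ε| := by
  have h : ML (S' S w i t) (fun l t => sg (ε l t)) = sg (ε i t) * Z S w i t ε := by
    unfold ML Z S'
    rw [Finset.mul_sum]
    apply Finset.sum_congr rfl
    intro j _
    by_cases hj : j i = t
    · rw [if_pos hj, if_pos hj, ← Finset.mul_prod_erase univ (fun l => sg (ε l (j l))) (Finset.mem_univ i), hj,
        Finset.prod_mul_distrib]
      ring
    · rw [if_neg hj, if_neg hj, zero_mul, mul_zero]
  rw [h, abs_mul, abs_sg, one_mul]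

lemma dual {p K : ℝ} (hp : 0 < p) {S : (ι → Fin d) → ℝ}
    (hS : ∀ y : ι → Fin d → ℝ, (∀ l, pn p (y l) ≤ 1) → |ML S y| ≤ K) {w : ι → Fin d → ℝ}
    (hw0 : ∀ l t, 0 ≤ w l t) (hw : ∀ l, pn p (w l) ≤ 1) (i : ι) (ε : ι → Fin d → Bool) :
    ∑ t, w i t * |Z S w i t ε| ≤ K := by
  choose s hs1 hs2 using exists_sign
  set y : ι → Fin d → ℝ := fun l t => if l = i then w i t * s (Z S w i t ε) else sg (ε l t) * w l t with hy
  have hyl : ∀ l, pn p (y l) ≤ 1 := by
    intro l
    refine (pn_mono hp ?_).trans (hw l)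
    intro t
    by_cases hl : l = i
    · subst hl
      simp only [hy, if_true]
      rw [abs_mul]
      exact mul_le_of_le_one_right (abs_nonneg _) (hs1 _)
    · simp only [hy, if_neg hl]
      rw [abs_mul, abs_sg, one_mul]
  have h1 : ML S y = ∑ t, w i t * |Z S w i t ε| := by
    have h2 : ∀ t, w i t * |Z S w i t ε| =
        ∑ j : ι → Fin d, if j i = t then S j * ∏ l, y l (j l) else 0 := by
      intro t
      have e0 : ∀ σ : ℝ, σ * Z S w i t ε = ∑ j : ι → Fin d,
          if j i = t then σ * (S j * ∏ l ∈ univ.erase i, (sg (ε l (j l)) * w l (j l))) else 0 := by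
        intro σ
        unfold Z
        rw [Finset.mul_sum]
        apply Finset.sum_congr rfl
        intro j _
        rw [mul_ite, mul_zero]
      rw [← hs2, ← mul_assoc, e0]
      apply Finset.sum_congr rfl
      intro j _
      by_cases hj : j i = t
      · rw [if_pos hj, if_pos hj, ← Finset.mul_prod_erase univ (fun l => y l (j l)) (Finset.mem_univ i)]
        have e1 : y i (j i) = w i t * s (Z S w i t ε) := by
          simp only [hy, if_true, hj]
        have e2 : ∏ l ∈ univ.erase i, y l (j l) = ∏ l ∈ univ.erase i, (sg (ε l (j l)) * w l (j l)) := by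
          apply Finset.prod_congr rfl
          intro l hl
          simp only [hy, if_neg (Finset.ne_of_mem_erase hl)]
        rw [e1, e2]
        ring
      · rw [if_neg hj, if_neg hj]
    rw [Finset.sum_congr rfl (fun t _ => h2 t), Finset.sum_comm]
    unfold ML
    apply Finset.sum_congr rfl
    intro j _
    rw [Finset.sum_ite_eq univ (j i) (fun _ => S j * ∏ l, y l (j l)), if_pos (Finset.mem_univ _)]
  rw [← h1]
  exact (le_abs_self _).trans (hS y hyl)

/-- averaging over the signs -/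
lemma aver {p K : ℝ} (hp : 0 < p) {S : (ι → Fin d) → ℝ}
    (hS : ∀ y : ι → Fin d → ℝ, (∀ l, pn p (y l) ≤ 1) → |ML S y| ≤ K) {w : ι → Fin d → ℝ}
    (hw0 : ∀ l t, 0 ≤ w l t) (hw : ∀ l, pn p (w l) ≤ 1) (i : ι) :
    ∑ t, w i t * Real.sqrt (∑ j, S' S w i t j ^ 2) ≤ Real.sqrt (3 ^ Fintype.card ι) * K := by
  set F : ℝ := (Fintype.card (ι → Fin d → Bool) : ℝ) with hF
  have hF0 : 0 < F := by
    rw [hF]
    exact_mod_cast Fintype.card_pos
  have h1 : ∀ t, w i t * Real.sqrt (∑ j, S' S w i t j ^ 2) ≤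
      Real.sqrt (3 ^ Fintype.card ι) * (F⁻¹ * ∑ ε : ι → Fin d → Bool, w i t * |Z S w i t ε|) := by
    intro t
    have h2 := khin (S' S w i t)
    simp only [ML_S'] at h2
    calc w i t * Real.sqrt (∑ j, S' S w i t j ^ 2)
        ≤ w i t * (Real.sqrt (3 ^ Fintype.card ι) * (F⁻¹ * ∑ ε : ι → Fin d → Bool, |Z S w i t ε|)) :=
          mul_le_mul_of_nonneg_left h2 (hw0 i t)
      _ = _ := by
          rw [← Finset.mul_sum]
          ring
  calc ∑ t, w i t * Real.sqrt (∑ j, S' S w i t j ^ 2)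
      ≤ ∑ t, Real.sqrt (3 ^ Fintype.card ι) * (F⁻¹ * ∑ ε : ι → Fin d → Bool, w i t * |Z S w i t ε|) :=
        Finset.sum_le_sum (fun t _ => h1 t)
    _ = Real.sqrt (3 ^ Fintype.card ι) * (F⁻¹ * ∑ ε : ι → Fin d → Bool, ∑ t, w i t * |Z S w i t ε|) := by
        rw [← Finset.mul_sum, ← Finset.mul_sum, Finset.sum_comm]
    _ ≤ Real.sqrt (3 ^ Fintype.card ι) * (F⁻¹ * ∑ _ε : ι → Fin d → Bool, K) := by
        apply mul_le_mul_of_nonneg_left _ (Real.sqrt_nonneg _)
        apply mul_le_mul_of_nonneg_left _ (inv_nonneg.2 hF0.le)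
        exact Finset.sum_le_sum (fun ε _ => dual hp hS hw0 hw i ε)
    _ = Real.sqrt (3 ^ Fintype.card ι) * K := by
        rw [Finset.sum_const, Finset.card_univ, nsmul_eq_mul, ← hF, inv_mul_cancel_left₀ hF0.ne']

/-- the marginals -/
def mg (S : (ι → Fin d) → ℝ) (i : ι) (t : Fin d) : ℝ := ∑ j : ι → Fin d, if j i = t then S j ^ 2 else 0

lemma mg_nonneg (S : (ι → Fin d) → ℝ) (i : ι) (t : Fin d) : 0 ≤ mg S i t := by
  apply Finset.sum_nonneg
  intro j _
  split_ifs
  · positivity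
  · exact le_rfl

lemma sum_mg (S : (ι → Fin d) → ℝ) (i : ι) : ∑ t, mg S i t = ∑ j, S j ^ 2 := by
  unfold mg
  rw [Finset.sum_comm]
  apply Finset.sum_congr rfl
  intro j _
  rw [Finset.sum_ite_eq univ (j i) (fun _ => S j ^ 2), if_pos (Finset.mem_univ _)]

/-- Cauchy-Schwarz -/
lemma cs (S : (ι → Fin d) → ℝ) (w : ι → Fin d → ℝ) (i : ι) (t : Fin d) :
    ∑ j : ι → Fin d, (if j i = t then S j ^ 2 * ∏ l ∈ univ.erase i, w l (j l) else 0) ≤
      Real.sqrt (mg S i t) * Real.sqrt (∑ j, S' S w i t j ^ 2) := by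
  have h := Finset.sum_mul_sq_le_sq_mul_sq (univ : Finset (ι → Fin d)) (fun j => if j i = t then |S j| else 0)
    (fun j => if j i = t then |S j| * ∏ l ∈ univ.erase i, w l (j l) else 0)
  have e1 : ∑ j : ι → Fin d, (if j i = t then |S j| else 0) *
      (if j i = t then |S j| * ∏ l ∈ univ.erase i, w l (j l) else 0) =
      ∑ j : ι → Fin d, (if j i = t then S j ^ 2 * ∏ l ∈ univ.erase i, w l (j l) else 0) := by
    apply Finset.sum_congr rfl
    intro j _
    split_ifs
    · rw [← mul_assoc, ← sq, sq_abs]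
    · ring
  have e2 : ∑ j : ι → Fin d, (if j i = t then |S j| else 0) ^ 2 = mg S i t := by
    unfold mg
    apply Finset.sum_congr rfl
    intro j _
    split_ifs
    · rw [sq_abs]
    · ring
  have e3 : ∑ j : ι → Fin d, (if j i = t then |S j| * ∏ l ∈ univ.erase i, w l (j l) else 0) ^ 2 =
      ∑ j, S' S w i t j ^ 2 := by
    unfold S'
    apply Finset.sum_congr rfl
    intro j _
    split_ifs
    · rw [mul_pow, mul_pow, sq_abs]
    · ring
  rw [e1, e2, e3] at h
  rw [← Real.sqrt_mul (mg_nonneg S i t)]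
  apply Real.le_sqrt_of_sq_le
  exact h

end HLa

open HLa

theorem hl {ι : Type} [Fintype ι] [DecidableEq ι] {d : ℕ} {p K : ℝ} (hp : 0 < p)
    (hc : 2 * (Fintype.card ι : ℝ) ≤ p) (hK : 0 ≤ K) {S : (ι → Fin d) → ℝ}
    (hS : ∀ y : ι → Fin d → ℝ, (∀ l, pn p (y l) ≤ 1) → |ML S y| ≤ K) :
    ∑ j, S j ^ 2 ≤ 3 ^ Fintype.card ι * K ^ 2 := by
  set c := Fintype.card ι with hcd
  set M := ∑ j, S j ^ 2 with hM
  have hM0 : 0 ≤ M := Finset.sum_nonneg (fun j _ => sq_nonneg _)
  rcases eq_or_lt_of_le hM0 with hM1 | hM1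
  · rw [← hM1]
    positivity
  rcases Nat.eq_zero_or_pos c with hc0 | hc0
  · have : IsEmpty ι := Fintype.card_eq_zero_iff.1 (by rw [← hcd, hc0])
    have h1 := hS (fun l => isEmptyElim l) (fun l => isEmptyElim l)
    have h2 : M = S isEmptyElim ^ 2 := by
      rw [hM, Fintype.sum_unique]
      congr 2
    have h3 : ML S (fun l => isEmptyElim l) = S isEmptyElim := by
      unfold ML
      rw [Fintype.sum_unique, Finset.univ_eq_empty, Finset.prod_empty, mul_one]
      congr 1
    rw [h3] at h1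
    rw [h2, hc0, pow_zero, one_mul, ← sq_abs]
    exact pow_le_pow_left₀ (abs_nonneg _) h1 2
  have hcR : (0 : ℝ) < c := by exact_mod_cast hc0
  set w : ι → Fin d → ℝ := fun l t => (mg S l t / M) ^ (1 / (2 * (c : ℝ))) with hwd
  have hr0 : ∀ l t, 0 ≤ mg S l t / M := fun l t => div_nonneg (mg_nonneg S l t) hM0
  have hw0 : ∀ l t, 0 ≤ w l t := fun l t => Real.rpow_nonneg (hr0 l t) _
  have hr1 : ∀ l t, mg S l t / M ≤ 1 := by
    intro l t
    rw [div_le_one hM1]
    have h1 := sum_mg S l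
    rw [← hM] at h1
    rw [← h1]
    exact Finset.single_le_sum (fun t _ => mg_nonneg S l t) (Finset.mem_univ t)
  have hw1 : ∀ l t, w l t ≤ 1 := fun l t => Real.rpow_le_one (hr0 l t) (hr1 l t) (by positivity)
  have hw2 : ∀ l t, w l t ^ (2 * c) = mg S l t / M := by
    intro l t
    simp only [hwd]
    rw [← Real.rpow_natCast, ← Real.rpow_mul (hr0 l t)]
    push_cast
    rw [one_div_mul_cancel (by positivity), Real.rpow_one]
  have hw : ∀ l, pn p (w l) ≤ 1 := by
    intro l
    unfold pn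
    apply Real.rpow_le_one
    · exact Finset.sum_nonneg (fun t _ => Real.rpow_nonneg (abs_nonneg _) _)
    · calc ∑ t, |w l t| ^ p ≤ ∑ t, mg S l t / M := by
            apply Finset.sum_le_sum
            intro t _
            rw [abs_of_nonneg (hw0 l t), ← hw2 l t, ← Real.rpow_natCast]
            apply Real.rpow_le_rpow_of_exponent_ge_of_imp (hw0 l t) (hw1 l t)
            · push_cast
              linarith
            · intro h1 h2
              exfalso
              have : (0 : ℝ) < 2 * c := by positivity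
              linarith
        _ = 1 := by
            rw [← Finset.sum_div, sum_mg, ← hM, div_self hM1.ne']
    · positivity
  -- the bound for every slot
  have hmg : ∀ i t, Real.sqrt (mg S i t) = Real.sqrt M * w i t ^ c := by
    intro i t
    have h1 : mg S i t = M * (w i t ^ c) ^ 2 := by
      rw [← pow_mul, mul_comm c 2, hw2 i t, mul_div_cancel₀ _ hM1.ne']
    rw [h1, Real.sqrt_mul hM0, Real.sqrt_sq (pow_nonneg (hw0 i t) _)]
  have key : ∀ i, ∑ j : ι → Fin d, S j ^ 2 * (∏ l, w l (j l)) * ((w i (j i)) ^ c)⁻¹ ≤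
      Real.sqrt M * (Real.sqrt (3 ^ c) * K) := by
    intro i
    have h1 : ∑ j : ι → Fin d, S j ^ 2 * (∏ l, w l (j l)) * ((w i (j i)) ^ c)⁻¹ =
        ∑ t, w i t * (w i t ^ c)⁻¹ *
          ∑ j : ι → Fin d, (if j i = t then S j ^ 2 * ∏ l ∈ univ.erase i, w l (j l) else 0) := by
      have h2 : ∀ t, w i t * (w i t ^ c)⁻¹ *
          ∑ j : ι → Fin d, (if j i = t then S j ^ 2 * ∏ l ∈ univ.erase i, w l (j l) else 0) =
          ∑ j : ι → Fin d, (if j i = t then S j ^ 2 * (∏ l, w l (j l)) * ((w i (j i)) ^ c)⁻¹ else 0) := by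
        intro t
        rw [Finset.mul_sum]
        apply Finset.sum_congr rfl
        intro j _
        by_cases hj : j i = t
        · rw [if_pos hj, if_pos hj, ← Finset.mul_prod_erase univ (fun l => w l (j l)) (Finset.mem_univ i), hj]
          ring
        · rw [if_neg hj, if_neg hj, mul_zero]
      rw [Finset.sum_congr rfl (fun t _ => h2 t), Finset.sum_comm]
      apply Finset.sum_congr rfl
      intro j _
      rw [Finset.sum_ite_eq univ (j i) (fun _ => S j ^ 2 * (∏ l, w l (j l)) * ((w i (j i)) ^ c)⁻¹),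
        if_pos (Finset.mem_univ _)]
    rw [h1]
    have h3 := aver hp hS hw0 hw i
    rw [← hcd] at h3
    refine le_trans ?_ (mul_le_mul_of_nonneg_left h3 (Real.sqrt_nonneg M))
    rw [Finset.mul_sum]
    apply Finset.sum_le_sum
    intro t _
    have h4 := cs S w i t
    rw [hmg] at h4
    have h5 : 0 ≤ w i t * (w i t ^ c)⁻¹ := mul_nonneg (hw0 i t) (inv_nonneg.2 (pow_nonneg (hw0 i t) _))
    refine (mul_le_mul_of_nonneg_left h4 h5).trans ?_
    rcases eq_or_lt_of_le (hw0 i t) with h6 | h6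
    · rw [← h6]
      simp
    · have h7 : w i t ^ c ≠ 0 := (pow_pos h6 _).ne'
      apply le_of_eq
      field_simp
  -- arithmetic-geometric mean
  have hA : ∀ j : ι → Fin d, c * S j ^ 2 ≤ ∑ i, S j ^ 2 * (∏ l, w l (j l)) * ((w i (j i)) ^ c)⁻¹ := by
    intro j
    rcases eq_or_ne (S j) 0 with hj | hj
    · rw [hj]
      simp
    have hpos : ∀ l, 0 < w l (j l) := by
      intro l
      apply Real.rpow_pos_of_pos
      apply div_pos _ hM1
      have h1 : S j ^ 2 ≤ mg S l (j l) := by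
        unfold mg
        have := Finset.single_le_sum (f := fun j' : ι → Fin d => if j' l = j l then S j' ^ 2 else 0)
          (fun j' _ => by
            show 0 ≤ (if j' l = j l then S j' ^ 2 else 0)
            split_ifs
            · positivity
            · exact le_rfl) (Finset.mem_univ j)
        simpa using this
      exact lt_of_lt_of_le (by positivity) h1
    have hP : 0 < ∏ l, w l (j l) := Finset.prod_pos (fun l _ => hpos l)
    have h2 := Real.geom_mean_le_arith_mean_weighted (univ : Finset ι) (fun _ => 1 / (c : ℝ))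
      (fun i => ((w i (j i)) ^ c)⁻¹) (fun i _ => by positivity)
      (by rw [Finset.sum_const, Finset.card_univ, ← hcd, nsmul_eq_mul, mul_one_div_cancel hcR.ne'])
      (fun i _ => inv_nonneg.2 (pow_nonneg (hpos i).le _))
    have h3 : ∏ i, (((w i (j i)) ^ c)⁻¹) ^ (1 / (c : ℝ)) = (∏ l, w l (j l))⁻¹ := by
      rw [← Finset.prod_inv_distrib]
      apply Finset.prod_congr rfl
      intro i _
      rw [← inv_pow, ← Real.rpow_natCast, ← Real.rpow_mul (inv_nonneg.2 (hpos i).le),
        mul_one_div_cancel hcR.ne', Real.rpow_one]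
    rw [h3, ← Finset.mul_sum] at h2
    have h4 : (c : ℝ) * (∏ l, w l (j l))⁻¹ ≤ ∑ i, ((w i (j i)) ^ c)⁻¹ := by
      rw [one_div, inv_mul_eq_div, le_div_iff₀ hcR] at h2
      linarith
    rw [← Finset.mul_sum]
    calc (c : ℝ) * S j ^ 2 = S j ^ 2 * (∏ l, w l (j l)) * (c * (∏ l, w l (j l))⁻¹) := by
          field_simp
      _ ≤ _ := mul_le_mul_of_nonneg_left h4 (mul_nonneg (sq_nonneg _) hP.le)
  have hB : c * M ≤ c * (Real.sqrt M * (Real.sqrt (3 ^ c) * K)) := by
    calc c * M = ∑ j, c * S j ^ 2 := by rw [hM, Finset.mul_sum]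
      _ ≤ ∑ j : ι → Fin d, ∑ i, S j ^ 2 * (∏ l, w l (j l)) * ((w i (j i)) ^ c)⁻¹ :=
          Finset.sum_le_sum (fun j _ => hA j)
      _ = ∑ i, ∑ j : ι → Fin d, S j ^ 2 * (∏ l, w l (j l)) * ((w i (j i)) ^ c)⁻¹ := Finset.sum_comm
      _ ≤ ∑ _i : ι, Real.sqrt M * (Real.sqrt (3 ^ c) * K) := Finset.sum_le_sum (fun i _ => key i)
      _ = c * (Real.sqrt M * (Real.sqrt (3 ^ c) * K)) := by
          rw [Finset.sum_const, Finset.card_univ, ← hcd, nsmul_eq_mul]
  have hC : M ≤ Real.sqrt M * (Real.sqrt (3 ^ c) * K) := le_of_mul_le_mul_left hB hcR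
  have hs : 0 < Real.sqrt M := Real.sqrt_pos.2 hM1
  have hD : Real.sqrt M ≤ Real.sqrt (3 ^ c) * K := by
    have h1 : Real.sqrt M * Real.sqrt M ≤ Real.sqrt M * (Real.sqrt (3 ^ c) * K) := by
      rw [Real.mul_self_sqrt hM0]
      exact hC
    exact le_of_mul_le_mul_left h1 hs
  calc M = Real.sqrt M ^ 2 := (Real.sq_sqrt hM0).symm
    _ ≤ (Real.sqrt (3 ^ c) * K) ^ 2 := pow_le_pow_left₀ hs.le hD 2
    _ = 3 ^ c * K ^ 2 := by rw [mul_pow, Real.sq_sqrt (by positivity)]

end Pool.Agent.InjB
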