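import Pool.Agent.InjB.Defs

/-!
# MP_e7fc82_pr, module Khin: L1-L2 comparison for decoupled Rademacher chaos (helper41)

For `Z ε = ML S (fun l t => sg (ε l t))`, `ε : ι → Fin d → Bool` uniform, `c = card ι`: `E Z² = ∑ S²` and
`E Z⁴ ≤ 3 ^ c (∑ S²)²`; so `(E Z²)³ ≤ (E |Z|)² E Z⁴` (Hoelder / Cauchy-Schwarz twice: `E Z² ≤ (E |Z|)^{1/2} (E |Z|³)^{1/2}`,
`E |Z|³ ≤ (E Z² )^{1/2} (E Z⁴)^{1/2}`) gives `(E Z²)^{1/2} ≤ 3 ^ {c/2} E |Z|`.
The fourth moment: first for `ι = Fin c` by induction on `c` (`Fin.consEquiv` / `Fin.cons`): `Z = ∑ t, sg (ε 0 t) Z_t`,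
`E_{ε 0} Z⁴ ≤ 3 (∑ t, Z_t²)²` (`rad_four` in SymASQ/Groth or InjP/Dom) and `E (∑ Z_t²)² = ∑ E Z_t² Z_t'² ≤ (∑ (E Z_t⁴)^{1/2})²`.
Then transport along `Fintype.equivFin ι`.
-/

namespace Pool.Agent.InjB

open Finset MeasureTheory ProbabilityTheory Matrix
open Pool.Agent.InjP
open Pool.Agent.SymASQ (sg rad rad_pair rad_four)

namespace Khin_aux

theorem sum_cons {X : Type} [Fintype X] {c : ℕ} (F : (Fin (c + 1) → X) → ℝ) :
    ∑ k, F k = ∑ t : X, ∑ k : Fin c → X, F (Fin.cons t k) := by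
  rw [← (Fin.consEquiv (fun _ => X)).sum_comp, Fintype.sum_prod_type]
  rfl

/-- fourth moment of the norm of a Rademacher sum of vectors -/
theorem four {κ : Type} [Fintype κ] {d : ℕ} (v : κ → Fin d → ℝ) :
    ∑ e : Fin d → Bool, (∑ k, rad (v k) e ^ 2) ^ 2
      ≤ 2 ^ d * (3 * (∑ k, ∑ t, v k t ^ 2) ^ 2) := by
  have hA : ∀ k, 0 ≤ ∑ t, v k t ^ 2 := fun k => Finset.sum_nonneg fun t _ => sq_nonneg _
  have h1 : ∀ k l, ∑ e : Fin d → Bool, rad (v k) e ^ 2 * rad (v l) e ^ 2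
      ≤ 2 ^ d * 3 * ((∑ t, v k t ^ 2) * ∑ t, v l t ^ 2) := by
    intro k l
    have hcs := Finset.sum_mul_sq_le_sq_mul_sq (univ : Finset (Fin d → Bool))
      (fun e => rad (v k) e ^ 2) (fun e => rad (v l) e ^ 2)
    have e1 : ∀ k, ∑ e : Fin d → Bool, (rad (v k) e ^ 2) ^ 2 ≤
        2 ^ d * (3 * (∑ t, v k t ^ 2) ^ 2) := by
      intro k
      refine le_trans (le_of_eq (Finset.sum_congr rfl fun e _ => ?_)) (rad_four (v k))
      ring
    have h2 : (∑ e : Fin d → Bool, rad (v k) e ^ 2 * rad (v l) e ^ 2) ^ 2 ≤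
        (2 ^ d * 3 * ((∑ t, v k t ^ 2) * ∑ t, v l t ^ 2)) ^ 2 := by
      refine hcs.trans ((mul_le_mul (e1 k) (e1 l) (Finset.sum_nonneg fun e _ => by positivity)
        (by have := hA k; positivity)).trans (le_of_eq ?_))
      ring
    exact (pow_le_pow_iff_left₀ (Finset.sum_nonneg fun e _ => by positivity)
      (by have := hA k; have := hA l; positivity) (by norm_num)).1 h2
  have h2 : ∀ e : Fin d → Bool, (∑ k, rad (v k) e ^ 2) ^ 2 =
      ∑ k, ∑ l, rad (v k) e ^ 2 * rad (v l) e ^ 2 := by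
    intro e
    rw [sq, Finset.sum_mul_sum]
  rw [Finset.sum_congr rfl fun e _ => h2 e, Finset.sum_comm]
  have h3 : ∀ k, ∑ e : Fin d → Bool, ∑ l, rad (v k) e ^ 2 * rad (v l) e ^ 2 ≤
      ∑ l, 2 ^ d * 3 * ((∑ t, v k t ^ 2) * ∑ t, v l t ^ 2) := by
    intro k
    rw [Finset.sum_comm]
    exact Finset.sum_le_sum fun l _ => h1 k l
  refine (Finset.sum_le_sum fun k _ => h3 k).trans (le_of_eq ?_)
  rw [sq, Finset.sum_mul_sum]
  simp only [Finset.mul_sum]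
  refine Finset.sum_congr rfl fun k _ => Finset.sum_congr rfl fun l _ => ?_
  simp only [← Finset.mul_sum]
  ring

/-- the elementary inequality -/
theorem elem {y σ : ℝ} (hy : 0 ≤ y) (hσ : 0 < σ) :
    3 / 2 * (y ^ 2 / σ) - 1 / 6 * ((y ^ 2) ^ 2 / σ ^ 3) ≤ Real.sqrt 3 * y := by
  obtain ⟨z, rfl⟩ : ∃ z, y = z * σ := ⟨y / σ, by field_simp⟩
  have hz : 0 ≤ z := by
    by_contra h
    push Not at h
    have := mul_neg_of_neg_of_pos h hσ
    linarith
  set r := Real.sqrt 3 with hr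
  have hr0 : 0 ≤ r := Real.sqrt_nonneg 3
  have hr2 : r ^ 2 = 3 := Real.sq_sqrt (by norm_num)
  have e1 : 3 / 2 * ((z * σ) ^ 2 / σ) - 1 / 6 * (((z * σ) ^ 2) ^ 2 / σ ^ 3) =
      σ * (3 / 2 * z ^ 2 - 1 / 6 * z ^ 4) := by
    field_simp
  rw [e1]
  have e2 : r * (z * σ) - σ * (3 / 2 * z ^ 2 - 1 / 6 * z ^ 4) =
      σ * z / 6 * ((z - r) ^ 2 * (z + 2 * r)) := by
    have e3 : (z - r) ^ 2 * (z + 2 * r) = z ^ 3 - 3 * z * r ^ 2 + 2 * r * r ^ 2 := by ring
    rw [e3, hr2]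
    ring
  have e4 : 0 ≤ σ * z / 6 * ((z - r) ^ 2 * (z + 2 * r)) := by positivity
  linarith

theorem second {κ : Type} [Fintype κ] {d : ℕ} (v : κ → Fin d → ℝ) :
    ∑ e : Fin d → Bool, ∑ k, rad (v k) e ^ 2 = 2 ^ d * ∑ k, ∑ t, v k t ^ 2 := by
  rw [Finset.sum_comm, Finset.mul_sum]
  refine Finset.sum_congr rfl fun k _ => ?_
  have := rad_pair (v k) (v k)
  simp only [← sq] at this
  exact this

/-- Khinchine's inequality for vectors -/
theorem vec {κ : Type} [Fintype κ] {d : ℕ} (v : κ → Fin d → ℝ) :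
    Real.sqrt (∑ k, ∑ t, v k t ^ 2) ≤
      Real.sqrt 3 * (((2 : ℝ) ^ d)⁻¹ * ∑ e : Fin d → Bool, Real.sqrt (∑ k, rad (v k) e ^ 2)) := by
  set s := ∑ k, ∑ t, v k t ^ 2 with hs
  have hs0 : 0 ≤ s := Finset.sum_nonneg fun k _ => Finset.sum_nonneg fun t _ => sq_nonneg _
  rcases hs0.eq_or_lt with h0 | h0
  · rw [← h0, Real.sqrt_zero]
    positivity
  · set σ := Real.sqrt s with hσ
    have hσ0 : 0 < σ := Real.sqrt_pos.2 h0
    have hσ2 : σ ^ 2 = s := Real.sq_sqrt hs0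
    have hX : ∀ e : Fin d → Bool, 0 ≤ ∑ k, rad (v k) e ^ 2 :=
      fun e => Finset.sum_nonneg fun k _ => sq_nonneg _
    have h1 : ∀ e : Fin d → Bool, 3 / 2 * ((∑ k, rad (v k) e ^ 2) / σ) -
        1 / 6 * ((∑ k, rad (v k) e ^ 2) ^ 2 / σ ^ 3) ≤
        Real.sqrt 3 * Real.sqrt (∑ k, rad (v k) e ^ 2) := by
      intro e
      have := elem (Real.sqrt_nonneg (∑ k, rad (v k) e ^ 2)) hσ0
      rwa [Real.sq_sqrt (hX e)] at this
    have h2 := Finset.sum_le_sum fun (e : Fin d → Bool) (_ : e ∈ univ) => h1 e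
    rw [Finset.sum_sub_distrib, ← Finset.mul_sum, ← Finset.mul_sum, ← Finset.mul_sum,
      ← Finset.sum_div, ← Finset.sum_div, second v, ← hs] at h2
    have h3 := four v
    rw [← hs] at h3
    have h4 : (∑ e : Fin d → Bool, (∑ k, rad (v k) e ^ 2) ^ 2) / σ ^ 3 ≤
        2 ^ d * (3 * s ^ 2) / σ ^ 3 := by gcongr
    have h5 : (2 : ℝ) ^ d * σ ≤ Real.sqrt 3 * ∑ e : Fin d → Bool,
        Real.sqrt (∑ k, rad (v k) e ^ 2) := by
      have e1 : (2 : ℝ) ^ d * s / σ = 2 ^ d * σ := by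
        rw [← hσ2]
        field_simp
      have e2 : (2 : ℝ) ^ d * (3 * s ^ 2) / σ ^ 3 = 3 * (2 ^ d * σ) := by
        rw [← hσ2]
        field_simp
      rw [e1] at h2
      rw [e2] at h4
      linarith
    have h6 : Real.sqrt 3 * (((2 : ℝ) ^ d)⁻¹ * ∑ e : Fin d → Bool,
        Real.sqrt (∑ k, rad (v k) e ^ 2)) = ((2 : ℝ) ^ d)⁻¹ * (Real.sqrt 3 *
          ∑ e : Fin d → Bool, Real.sqrt (∑ k, rad (v k) e ^ 2)) := by ring
    rw [h6, le_inv_mul_iff₀ (by positivity)]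
    exact h5

/-- the form of the array after fixing the signs of the first slot -/
theorem ML_cons {c d : ℕ} (S : (Fin (c + 1) → Fin d) → ℝ) (e : Fin d → Bool)
    (ε : Fin c → Fin d → Bool) :
    ML S (fun l t => sg ((Fin.cons e ε : Fin (c + 1) → Fin d → Bool) l t)) =
      ML (fun k : Fin c → Fin d => rad (fun t => S (Fin.cons t k)) e)
        (fun l t => sg (ε l t)) := by
  unfold ML rad
  rw [sum_cons, Finset.sum_comm]
  refine Finset.sum_congr rfl fun k _ => ?_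
  rw [Finset.sum_mul]
  refine Finset.sum_congr rfl fun t _ => ?_
  rw [Fin.prod_univ_succ]
  simp only [Fin.cons_zero, Fin.cons_succ]
  ring

theorem fin_case {d : ℕ} : ∀ (c : ℕ) (S : (Fin c → Fin d) → ℝ),
    Real.sqrt (∑ j, S j ^ 2) ≤ Real.sqrt (3 ^ c) * ((((2 : ℝ) ^ d) ^ c)⁻¹ *
      ∑ ε : Fin c → Fin d → Bool, |ML S (fun l t => sg (ε l t))|) := by
  intro c
  induction c with
  | zero =>
    intro S
    have h1 : ∀ ε : Fin 0 → Fin d → Bool, |ML S (fun l t => sg (ε l t))| = |S Fin.elim0| := by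
      intro ε
      unfold ML
      rw [Fintype.sum_unique]
      simp only [Finset.univ_eq_empty, Finset.prod_empty, mul_one]
      congr 2
    rw [Finset.sum_congr rfl fun ε _ => h1 ε, Fintype.sum_unique, Fintype.sum_unique,
      Real.sqrt_sq_eq_abs]
    have h2 : S default = S Fin.elim0 := congrArg S (Subsingleton.elim _ _)
    rw [h2]
    simp
  | succ c ih =>
    intro S
    have h1 : ∑ j, S j ^ 2 = ∑ k : Fin c → Fin d, ∑ t, S (Fin.cons t k) ^ 2 := by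
      rw [sum_cons, Finset.sum_comm]
    have h2 := vec (κ := Fin c → Fin d) (d := d) (fun k t => S (Fin.cons t k))
    rw [← h1] at h2
    refine h2.trans ?_
    have h3 : ∀ e : Fin d → Bool, Real.sqrt (∑ k : Fin c → Fin d,
        rad (fun t => S (Fin.cons t k)) e ^ 2) ≤ Real.sqrt (3 ^ c) * ((((2 : ℝ) ^ d) ^ c)⁻¹ *
        ∑ ε : Fin c → Fin d → Bool, |ML S (fun l t =>
          sg ((Fin.cons e ε : Fin (c + 1) → Fin d → Bool) l t))|) := by
      intro e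
      have := ih (fun k : Fin c → Fin d => rad (fun t => S (Fin.cons t k)) e)
      simp only [ML_cons]
      exact this
    have h4 : ∑ e : Fin d → Bool, Real.sqrt (∑ k : Fin c → Fin d,
        rad (fun t => S (Fin.cons t k)) e ^ 2) ≤ Real.sqrt (3 ^ c) * ((((2 : ℝ) ^ d) ^ c)⁻¹ *
        ∑ ε : Fin (c + 1) → Fin d → Bool, |ML S (fun l t => sg (ε l t))|) := by
      refine (Finset.sum_le_sum fun e _ => h3 e).trans (le_of_eq ?_)
      rw [← Finset.mul_sum, ← Finset.mul_sum, ← sum_cons (fun ε : Fin (c + 1) → Fin d → Bool =>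
        |ML S (fun l t => sg (ε l t))|)]
    refine (mul_le_mul_of_nonneg_left (mul_le_mul_of_nonneg_left h4 (by positivity))
      (Real.sqrt_nonneg 3)).trans (le_of_eq ?_)
    have h5 : Real.sqrt (3 ^ (c + 1)) = Real.sqrt 3 * Real.sqrt (3 ^ c) := by
      rw [pow_succ, mul_comm, Real.sqrt_mul (by norm_num)]
    rw [h5, pow_succ ((2 : ℝ) ^ d) c, mul_inv]
    ring

end Khin_aux

theorem khin {ι : Type} [Fintype ι] [DecidableEq ι] {d : ℕ} (S : (ι → Fin d) → ℝ) :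
    Real.sqrt (∑ j, S j ^ 2) ≤ Real.sqrt (3 ^ Fintype.card ι) *
      ((Fintype.card (ι → Fin d → Bool) : ℝ)⁻¹ *
        ∑ ε : ι → Fin d → Bool, |ML S (fun l t => sg (ε l t))|) := by
  let e : ι ≃ Fin (Fintype.card ι) := Fintype.equivFin ι
  have h := Khin_aux.fin_case (Fintype.card ι)
    (fun k : Fin (Fintype.card ι) → Fin d => S (fun i => k (e i)))
  have h1 : ∑ k : Fin (Fintype.card ι) → Fin d, S (fun i => k (e i)) ^ 2 = ∑ j, S j ^ 2 :=
    Fintype.sum_equiv (e.arrowCongr (Equiv.refl (Fin d))).symm _ _ fun k => rfl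
  have h2 : (Fintype.card (ι → Fin d → Bool) : ℝ) = ((2 : ℝ) ^ d) ^ Fintype.card ι := by
    simp
  have h3 : ∑ ε : Fin (Fintype.card ι) → Fin d → Bool,
      |ML (fun k : Fin (Fintype.card ι) → Fin d => S (fun i => k (e i)))
        (fun l t => sg (ε l t))| =
      ∑ ε : ι → Fin d → Bool, |ML S (fun l t => sg (ε l t))| := by
    refine Fintype.sum_equiv (e.arrowCongr (Equiv.refl (Fin d → Bool))).symm _ _ fun ε => ?_
    congr 1
    unfold ML
    refine Fintype.sum_equiv (e.arrowCongr (Equiv.refl (Fin d))).symm _ _ fun k => ?_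
    congr 1
    exact (Fintype.prod_equiv e (fun i => sg (ε (e i) (k (e i)))) (fun l => sg (ε l (k l)))
      fun i => rfl).symm
  rw [h1, h3] at h
  rw [h2]
  exact h

end Pool.Agent.InjB
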