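import Pool.Agent.InjB.Defs

/-!
# MP_e7fc82_pr, module Kit: one species of `q` particles (helper41)

Direct computations. `hopE_mulVec`: in `∑ β, hopE j k α β * prodV u β` the term `b` is zero unless `α b = j`, and then only
`β = Function.update α b k` contributes, `u k * ∏ b' ≠ b, u (α b')`. `prodV_dot`: `Finset.prod_univ_sum` (`∑ α, ∏ b, u (α b) ^ 2 =
∏ b, ∑ i, u i ^ 2`). `prodV_exc`, `exc_exc`: write the summand for fixed `b` (and `b₂`) as a product over all particles
`∏ b', f b' (α b')`, and `∑ α, ∏ b', f b' (α b') = ∏ b', ∑ i, f b' i` (`Finset.prod_univ_sum` / `Fintype.piFinset_univ`); the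
factors are `∑ i, u i ^ 2 = 1`, or `∑ i, [i = j] u i = u j`, or (`b = b₂`) `∑ i, [i = j] [i = j']`.
-/

namespace Pool.Agent.InjB

open Finset MeasureTheory ProbabilityTheory Matrix
open Pool.Agent.InjP
open Pool.Agent.SymASQ (sg)

variable {q N : ℕ}

private lemma kit_sum (f : Fin q → Fin N → ℝ) : ∑ α : Fin q → Fin N, ∏ b, f b (α b) = ∏ b, ∑ i, f b i := by
  rw [Finset.prod_univ_sum, Fintype.piFinset_univ]

private lemma kit_term (u : Fin N → ℝ) (j : Fin N) (b : Fin q) (α : Fin q → Fin N) :
    (if α b = j then ∏ b' ∈ univ.erase b, u (α b') else 0) =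
      ∏ c, (if c = b then (if α c = j then (1 : ℝ) else 0) else u (α c)) := by
  rw [← Finset.mul_prod_erase univ _ (mem_univ b), if_pos rfl]
  have h : ∏ c ∈ univ.erase b, (if c = b then (if α c = j then (1 : ℝ) else 0) else u (α c)) =
      ∏ b' ∈ univ.erase b, u (α b') := by
    apply Finset.prod_congr rfl
    intro c hc
    rw [if_neg (Finset.ne_of_mem_erase hc)]
  rw [h]
  split_ifs
  · rw [one_mul]
  · rw [zero_mul]

theorem hopE_transpose (j k : Fin N) :
    (hopE j k : Matrix (Fin q → Fin N) (Fin q → Fin N) ℝ)ᵀ = hopE k j := by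
  ext α β
  show (∑ b : Fin q, if β b = j ∧ α b = k ∧ ∀ b', b' ≠ b → β b' = α b' then (1 : ℝ) else 0) =
    ∑ b : Fin q, if α b = k ∧ β b = j ∧ ∀ b', b' ≠ b → α b' = β b' then (1 : ℝ) else 0
  apply Finset.sum_congr rfl
  intro b _
  have h : (β b = j ∧ α b = k ∧ ∀ b', b' ≠ b → β b' = α b') ↔
      (α b = k ∧ β b = j ∧ ∀ b', b' ≠ b → α b' = β b') := by
    constructor
    · rintro ⟨h1, h2, h3⟩
      exact ⟨h2, h1, fun b' hb => (h3 b' hb).symm⟩
    · rintro ⟨h1, h2, h3⟩
      exact ⟨h2, h1, fun b' hb => (h3 b' hb).symm⟩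
  exact if_congr h rfl rfl

theorem hopE_mulVec (u : Fin N → ℝ) (j k : Fin N) :
    (hopE j k : Matrix (Fin q → Fin N) (Fin q → Fin N) ℝ) *ᵥ prodV u = u k • excV u j := by
  ext α
  show ∑ β, (∑ b : Fin q, if α b = j ∧ β b = k ∧ ∀ b', b' ≠ b → α b' = β b' then (1 : ℝ) else 0) * prodV u β =
    u k * ∑ b, if α b = j then ∏ b' ∈ univ.erase b, u (α b') else 0
  simp_rw [Finset.sum_mul]
  rw [Finset.sum_comm, Finset.mul_sum]
  apply Finset.sum_congr rfl
  intro b _
  by_cases hj : α b = j
  · rw [if_pos hj, Finset.sum_eq_single (Function.update α b k)]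
    · rw [if_pos ⟨hj, by rw [Function.update_self], fun b' hb => by rw [Function.update_of_ne hb]⟩, one_mul]
      unfold prodV
      rw [← Finset.mul_prod_erase univ _ (mem_univ b), Function.update_self]
      congr 1
      apply Finset.prod_congr rfl
      intro c hc
      rw [Function.update_of_ne (Finset.ne_of_mem_erase hc)]
    · intro β _ hβ
      rw [if_neg, zero_mul]
      rintro ⟨_, h2, h3⟩
      apply hβ
      ext c
      by_cases hc : c = b
      · rw [hc, h2, Function.update_self]
      · rw [← h3 c hc, Function.update_of_ne hc]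
    · intro h
      exact absurd (mem_univ _) h
  · rw [if_neg hj, mul_zero]
    apply Finset.sum_eq_zero
    intro β _
    rw [if_neg (fun h => hj h.1), zero_mul]

theorem prodV_dot {u : Fin N → ℝ} (hu : ∑ i, u i ^ 2 = 1) :
    (prodV u : (Fin q → Fin N) → ℝ) ⬝ᵥ prodV u = 1 := by
  show ∑ α : Fin q → Fin N, (∏ b, u (α b)) * ∏ b, u (α b) = 1
  simp_rw [← Finset.prod_mul_distrib]
  rw [kit_sum (fun _ i => u i * u i)]
  apply Finset.prod_eq_one
  intro b _
  rw [← hu]
  apply Finset.sum_congr rfl
  intro i _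
  ring

theorem prodV_exc {u : Fin N → ℝ} (hu : ∑ i, u i ^ 2 = 1) (j : Fin N) :
    (prodV u : (Fin q → Fin N) → ℝ) ⬝ᵥ excV u j = q * u j := by
  show ∑ α : Fin q → Fin N, (∏ b, u (α b)) * ∑ b, (if α b = j then ∏ b' ∈ univ.erase b, u (α b') else 0) = q * u j
  simp_rw [Finset.mul_sum, kit_term]
  rw [Finset.sum_comm]
  have h : ∀ b ∈ (univ : Finset (Fin q)), ∑ α : Fin q → Fin N, (∏ b, u (α b)) *
      ∏ c, (if c = b then (if α c = j then (1 : ℝ) else 0) else u (α c)) = u j := by
    intro b _
    simp_rw [← Finset.prod_mul_distrib]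
    rw [kit_sum (fun c i => u i * if c = b then (if i = j then (1 : ℝ) else 0) else u i),
      Finset.prod_eq_single b]
    · simp only [if_true, mul_ite, mul_one, mul_zero, Finset.sum_ite_eq', mem_univ]
    · intro c _ hc
      simp only [if_neg hc]
      rw [← hu]
      apply Finset.sum_congr rfl
      intro i _
      ring
    · intro h
      exact absurd (mem_univ _) h
  rw [Finset.sum_congr rfl h, Finset.sum_const, card_univ, Fintype.card_fin, nsmul_eq_mul]

theorem exc_exc {u : Fin N → ℝ} (hu : ∑ i, u i ^ 2 = 1) (j j' : Fin N) :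
    (excV u j : (Fin q → Fin N) → ℝ) ⬝ᵥ excV u j' =
      (if j = j' then (q : ℝ) else 0) + (q : ℝ) * ((q : ℝ) - 1) * (u j * u j') := by
  show ∑ α : Fin q → Fin N, (∑ b, (if α b = j then ∏ b' ∈ univ.erase b, u (α b') else 0)) *
    ∑ b, (if α b = j' then ∏ b' ∈ univ.erase b, u (α b') else 0) = _
  simp_rw [Finset.sum_mul_sum, kit_term]
  rw [Finset.sum_comm]
  have h : ∀ b ∈ (univ : Finset (Fin q)), ∑ α : Fin q → Fin N, ∑ b₂ : Fin q,
      (∏ c, (if c = b then (if α c = j then (1 : ℝ) else 0) else u (α c))) *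
      ∏ c, (if c = b₂ then (if α c = j' then (1 : ℝ) else 0) else u (α c)) =
      (if j = j' then 1 else 0) + ((q : ℝ) - 1) * (u j * u j') := by
    intro b _
    rw [Finset.sum_comm, ← Finset.add_sum_erase univ _ (mem_univ b)]
    congr 1
    · simp_rw [← Finset.prod_mul_distrib]
      rw [kit_sum (fun c i => (if c = b then (if i = j then (1 : ℝ) else 0) else u i) *
        (if c = b then (if i = j' then (1 : ℝ) else 0) else u i)), Finset.prod_eq_single b]
      · simp only [if_true, ite_mul, one_mul, zero_mul, Finset.sum_ite_eq', mem_univ]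
      · intro c _ hc
        simp only [if_neg hc]
        rw [← hu]
        apply Finset.sum_congr rfl
        intro i _
        ring
      · intro h
        exact absurd (mem_univ _) h
    · have h2 : ∀ b₂ ∈ univ.erase b, ∑ α : Fin q → Fin N,
          (∏ c, (if c = b then (if α c = j then (1 : ℝ) else 0) else u (α c))) *
          ∏ c, (if c = b₂ then (if α c = j' then (1 : ℝ) else 0) else u (α c)) = u j * u j' := by
        intro b₂ hb₂
        have hne : b₂ ≠ b := Finset.ne_of_mem_erase hb₂
        simp_rw [← Finset.prod_mul_distrib]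
        rw [kit_sum (fun c i => (if c = b then (if i = j then (1 : ℝ) else 0) else u i) *
          (if c = b₂ then (if i = j' then (1 : ℝ) else 0) else u i)),
          ← Finset.mul_prod_erase univ _ (mem_univ b)]
        congr 1
        · simp only [if_true, if_neg hne.symm, ite_mul, one_mul, zero_mul, Finset.sum_ite_eq', mem_univ]
        · rw [Finset.prod_eq_single b₂]
          · simp only [if_true, if_neg hne, mul_ite, mul_one, mul_zero, Finset.sum_ite_eq', mem_univ]
          · intro c hc hc2
            simp only [if_neg (Finset.ne_of_mem_erase hc), if_neg hc2]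
            rw [← hu]
            apply Finset.sum_congr rfl
            intro i _
            ring
          · intro h
            exact absurd hb₂ h
      rw [Finset.sum_congr rfl h2, Finset.sum_const, Finset.card_erase_of_mem (mem_univ b), card_univ,
        Fintype.card_fin, nsmul_eq_mul]
      have hq : 1 ≤ q := by
        have := b.2
        omega
      rw [Nat.cast_sub hq, Nat.cast_one]
  rw [Finset.sum_congr rfl h, Finset.sum_const, card_univ, Fintype.card_fin, nsmul_eq_mul]
  split_ifs <;> ring

end Pool.Agent.InjB
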