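import Pool.Agent.InjB.Ext

/-!
# MP_e7fc82_pr, module Odd1: symmetry, pairing and linearity of `multT` (helper12 for helper41)
-/

namespace Pool.Agent.InjB

open Finset MeasureTheory ProbabilityTheory Matrix
open Pool.Agent.InjP
open Pool.Agent.SymASQ (sg)

/-- the permutation of the other slots induced by a permutation of `r + 1` slots -/
private def odd1Perm {r : ℕ} (σ : Equiv.Perm (Fin (r + 1))) (j : Fin (r + 1)) :
    Equiv.Perm (Fin r) :=
  ((finSuccAboveEquiv j).trans
    (σ.subtypeEquiv (p := fun a => a ≠ j) (q := fun b => b ≠ σ j)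
      (fun a => by simp))).trans (finSuccAboveEquiv (σ j)).symm

private lemma odd1Perm_spec {r : ℕ} (σ : Equiv.Perm (Fin (r + 1))) (j : Fin (r + 1)) (l : Fin r) :
    (σ j).succAbove (odd1Perm σ j l) = σ (j.succAbove l) := by
  have h : (finSuccAboveEquiv (σ j)) (odd1Perm σ j l)
      = (σ.subtypeEquiv (p := fun a => a ≠ j) (q := fun b => b ≠ σ j)
      (fun a => by simp)) (finSuccAboveEquiv j l) := by
    unfold odd1Perm
    simp
  exact congrArg Subtype.val h

theorem multT_sym {r d : ℕ} {T : (Fin r → Fin d) → ℝ} (hT : IsSymT T) : IsSymT (multT T) := by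
  intro σ k
  unfold multT
  congr 1
  refine Fintype.sum_equiv σ _ _ fun j => ?_
  have h : extT T (fun l => (k ∘ σ) (j.succAbove l)) = extT T (fun l => k ((σ j).succAbove l)) := by
    rw [← extT_sym hT (odd1Perm σ j) (fun l => k ((σ j).succAbove l))]
    congr 1
    funext l
    simp only [Function.comp_apply, odd1Perm_spec]
  rw [h]
  rfl

private lemma odd1_slot {r d : ℕ} (S : (Fin r → Fin (d + 1)) → ℝ) (x : Fin (d + 1) → ℝ)
    (j : Fin (r + 1)) :
    ∑ k : Fin (r + 1) → Fin (d + 1),
      (if k j = Fin.last d then S (fun l => k (j.succAbove l)) else 0) * ∏ i, x (k i)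
      = x (Fin.last d) * pairing S x := by
  rw [← (Fin.insertNthEquiv (fun _ => Fin (d + 1)) j).sum_comp, Fintype.sum_prod_type]
  rw [Finset.sum_eq_single (Fin.last d)]
  · unfold pairing
    rw [Finset.mul_sum]
    refine Finset.sum_congr rfl fun k _ => ?_
    rw [Fin.prod_univ_succAbove _ j]
    simp only [Fin.insertNthEquiv_apply, Fin.insertNth_apply_same, Fin.insertNth_apply_succAbove,
      if_true]
    ring
  · intro b _ hb
    refine Finset.sum_eq_zero fun k _ => ?_
    simp [Fin.insertNthEquiv_apply, Fin.insertNth_apply_same, hb]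
  · intro h
    exact absurd (Finset.mem_univ _) h

theorem pairing_multT {r d : ℕ} (T : (Fin r → Fin d) → ℝ) (x : Fin (d + 1) → ℝ) :
    pairing (multT T) x = x (Fin.last d) * pairing T (fun t => x t.castSucc) := by
  have h1 : pairing (multT T) x
      = ((r : ℝ) + 1)⁻¹ * ∑ j : Fin (r + 1), ∑ k : Fin (r + 1) → Fin (d + 1),
        (if k j = Fin.last d then extT T (fun l => k (j.succAbove l)) else 0) * ∏ i, x (k i) := by
    unfold pairing multT
    rw [Finset.sum_comm, Finset.mul_sum]
    refine Finset.sum_congr rfl fun k _ => ?_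
    rw [mul_assoc, Finset.sum_mul]
  have h2 : pairing (extT T) x = pairing T (fun t => x t.castSucc) := by
    rw [pairing_eq_ML, pairing_eq_ML, ML_extT]
  rw [h1, Finset.sum_congr rfl fun j _ => odd1_slot (extT T) x j, Finset.sum_const,
    Finset.card_univ, Fintype.card_fin, h2, nsmul_eq_mul]
  push_cast
  have h3 : (r : ℝ) + 1 ≠ 0 := by positivity
  rw [inv_mul_cancel_left₀ h3]

theorem multT_sum {n r d : ℕ} (T : Fin n → (Fin r → Fin d) → ℝ) (g : Fin n → ℝ) :
    multT (∑ i, g i • T i) = ∑ i, g i • multT (T i) := by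
  funext k
  simp only [Finset.sum_apply, Pi.smul_apply, smul_eq_mul]
  unfold multT
  rw [extT_sum]
  have h : ∀ j : Fin (r + 1), (if k j = Fin.last d then
      (∑ i, g i • extT (T i)) (fun l => k (j.succAbove l)) else 0)
      = ∑ i, g i * (if k j = Fin.last d then extT (T i) (fun l => k (j.succAbove l)) else 0) := by
    intro j
    split_ifs with hj
    · simp only [Finset.sum_apply, Pi.smul_apply, smul_eq_mul]
    · simp
  rw [Finset.sum_congr rfl fun j _ => h j, Finset.sum_comm, Finset.mul_sum]
  refine Finset.sum_congr rfl fun i _ => ?_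
  rw [← Finset.mul_sum]
  ring

end Pool.Agent.InjB
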