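import Pool.Agent.InjB.Defs

/-!
# MP_e7fc82_pr, module Pol: polarization (helper41)

`pn_add_le`: Minkowski's inequality (`Real.Lp_add_le`). `ml_le`: expand
`∑ ε : Fin r → Bool, (∏ j, sg (ε j)) * pairing T (∑ j, sg (ε j) • y j)` over the maps `m : Fin r → Fin r`; the coefficient of
`ML' m = ∑ k, T k * ∏ l, y (m l) (k l)` is `2 ^ r` if `m` is bijective and `0` otherwise, and `ML' m = ML T y` if `m` is a
permutation (`IsSymT`). `pn p (∑ j, sg (ε j) • y j) ≤ r` by `pn_add_le` and `pn_smul`, and `pairing_le`.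
-/

namespace Pool.Agent.InjB

open Finset MeasureTheory ProbabilityTheory Matrix
open Pool.Agent.InjP
open Pool.Agent.SymASQ (sg)

theorem pn_add_le {d : ℕ} {p : ℝ} (hp : 1 ≤ p) (x y : Fin d → ℝ) : pn p (x + y) ≤ pn p x + pn p y := by
  unfold pn
  exact Real.Lp_add_le Finset.univ x y hp

private lemma pol_sg_abs (b : Bool) : |sg b| = 1 := by
  cases b <;> simp [sg]

private lemma pol_sg_sq (b : Bool) : sg b * sg b = 1 := by
  cases b <;> simp [sg]

private lemma pol_sg_not (b : Bool) : sg (!b) = - sg b := by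
  cases b <;> simp [sg]

/-- the coefficient of a bijective map -/
private lemma pol_coef_bij {r : ℕ} {m : Fin r → Fin r} (hm : Function.Bijective m) :
    ∑ ε : Fin r → Bool, (∏ j, sg (ε j)) * ∏ l, sg (ε (m l)) = 2 ^ r := by
  have e1 : ∀ ε : Fin r → Bool, (∏ j, sg (ε j)) * ∏ l, sg (ε (m l)) = 1 := by
    intro ε
    rw [hm.prod_comp (fun j => sg (ε j)), ← Finset.prod_mul_distrib]
    exact Finset.prod_eq_one fun j _ => pol_sg_sq _
  rw [Finset.sum_congr rfl fun ε _ => e1 ε]
  simp

/-- the coefficient of a map which is not surjective -/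
private lemma pol_coef_not {r : ℕ} {m : Fin r → Fin r} (hm : ¬ Function.Bijective m) :
    ∑ ε : Fin r → Bool, (∏ j, sg (ε j)) * ∏ l, sg (ε (m l)) = 0 := by
  have hs : ¬ Function.Surjective m := fun h => hm (Finite.surjective_iff_bijective.1 h)
  unfold Function.Surjective at hs
  push Not at hs
  obtain ⟨j0, hj0⟩ := hs
  refine Finset.sum_involution (fun ε _ => Function.update ε j0 (!ε j0)) ?_ ?_ ?_ ?_
  · intro ε _
    have e1 : ∏ j, sg (Function.update ε j0 (!ε j0) j) = - ∏ j, sg (ε j) := by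
      have : ∀ j, sg (Function.update ε j0 (!ε j0) j) = sg (ε j) * (if j = j0 then -1 else 1) := by
        intro j
        by_cases h : j = j0
        · subst h
          rw [Function.update_self, if_pos rfl, pol_sg_not]; ring
        · rw [Function.update_of_ne h, if_neg h, mul_one]
      rw [Finset.prod_congr rfl fun j _ => this j, Finset.prod_mul_distrib, Finset.prod_ite_eq']
      simp
    have e2 : ∏ l, sg (Function.update ε j0 (!ε j0) (m l)) = ∏ l, sg (ε (m l)) :=
      Finset.prod_congr rfl fun l _ => by rw [Function.update_of_ne (hj0 l)]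
    rw [e1, e2]; ring
  · intro ε _ _ h
    have := congrFun h j0
    rw [Function.update_self] at this
    cases h' : ε j0 <;> simp [h'] at this
  · intro ε _
    exact Finset.mem_univ _
  · intro ε _
    funext j
    by_cases h : j = j0
    · subst h
      simp
    · rw [Function.update_of_ne h, Function.update_of_ne h]

/-- the form does not change under a permutation of the arguments -/
private lemma pol_perm {r d : ℕ} {T : (Fin r → Fin d) → ℝ} (hT : IsSymT T)
    (y : Fin r → Fin d → ℝ) {m : Fin r → Fin r} (hm : Function.Bijective m) :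
    ∑ k : Fin r → Fin d, T k * ∏ l, y (m l) (k l) = ML T y := by
  unfold ML
  refine Fintype.sum_equiv (Equiv.arrowCongr (Equiv.ofBijective m hm) (Equiv.refl (Fin d))) _ _ ?_
  intro k
  have e1 : (Equiv.arrowCongr (Equiv.ofBijective m hm) (Equiv.refl (Fin d))) k
      = k ∘ (Equiv.ofBijective m hm).symm := rfl
  rw [e1, hT (Equiv.ofBijective m hm).symm k, ← hm.prod_comp (fun j => y j ((k ∘ (Equiv.ofBijective m hm).symm) j))]
  congr 1
  refine Finset.prod_congr rfl fun l _ => ?_
  congr 1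
  show k l = k ((Equiv.ofBijective m hm).symm (m l))
  congr 1
  exact ((Equiv.ofBijective m hm).symm_apply_apply l).symm

/-- the expansion -/
private lemma pol_expand {r d : ℕ} (T : (Fin r → Fin d) → ℝ) (y : Fin r → Fin d → ℝ)
    (ε : Fin r → Bool) :
    pairing T (∑ j, sg (ε j) • y j)
      = ∑ m : Fin r → Fin r, (∏ l, sg (ε (m l))) * ∑ k : Fin r → Fin d, T k * ∏ l, y (m l) (k l) := by
  unfold pairing
  have e1 : ∀ k : Fin r → Fin d, T k * ∏ l, (∑ j, sg (ε j) • y j) (k l)
      = ∑ m : Fin r → Fin r, T k * ((∏ l, sg (ε (m l))) * ∏ l, y (m l) (k l)) := by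
    intro k
    rw [← Finset.mul_sum]
    congr 1
    have e2 : ∀ l, (∑ j, sg (ε j) • y j) (k l) = ∑ j, sg (ε j) * y j (k l) := by
      intro l
      rw [Finset.sum_apply]
      rfl
    rw [Finset.prod_congr rfl fun l _ => e2 l, Finset.prod_univ_sum, Fintype.piFinset_univ]
    exact Finset.sum_congr rfl fun m _ => Finset.prod_mul_distrib
  rw [Finset.sum_congr rfl fun k _ => e1 k, Finset.sum_comm]
  refine Finset.sum_congr rfl fun m _ => ?_
  rw [Finset.mul_sum]
  exact Finset.sum_congr rfl fun k _ => by ring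

/-- the polarization identity -/
private lemma pol_identity {r d : ℕ} {T : (Fin r → Fin d) → ℝ} (hT : IsSymT T)
    (y : Fin r → Fin d → ℝ) :
    ∑ ε : Fin r → Bool, (∏ j, sg (ε j)) * pairing T (∑ j, sg (ε j) • y j)
      = (Fintype.card {m : Fin r → Fin r // Function.Bijective m} : ℝ) * (2 ^ r * ML T y) := by
  classical
  have e1 : ∀ ε : Fin r → Bool, (∏ j, sg (ε j)) * pairing T (∑ j, sg (ε j) • y j)
      = ∑ m : Fin r → Fin r, ((∏ j, sg (ε j)) * ∏ l, sg (ε (m l)))
        * ∑ k : Fin r → Fin d, T k * ∏ l, y (m l) (k l) := by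
    intro ε
    rw [pol_expand, Finset.mul_sum]
    exact Finset.sum_congr rfl fun m _ => by ring
  rw [Finset.sum_congr rfl fun ε _ => e1 ε, Finset.sum_comm]
  have e2 : ∀ m : Fin r → Fin r, ∑ ε : Fin r → Bool, ((∏ j, sg (ε j)) * ∏ l, sg (ε (m l)))
        * ∑ k : Fin r → Fin d, T k * ∏ l, y (m l) (k l)
      = if Function.Bijective m then 2 ^ r * ML T y else 0 := by
    intro m
    rw [← Finset.sum_mul]
    split_ifs with h
    · rw [pol_coef_bij h, pol_perm hT y h]
    · rw [pol_coef_not h, zero_mul]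
  rw [Finset.sum_congr rfl fun m _ => e2 m, ← Finset.sum_filter, Finset.sum_const, nsmul_eq_mul,
    Fintype.card_subtype]

theorem ml_le {r d : ℕ} {p : ℝ} (hp : 1 ≤ p) (hr : r ≠ 0) {T : (Fin r → Fin d) → ℝ} (hT : IsSymT T)
    {y : Fin r → Fin d → ℝ} (hy : ∀ j, pn p (y j) ≤ 1) :
    |ML T y| ≤ (r : ℝ) ^ r * injNorm p T := by
  have hp0 : 0 < p := by linarith
  have hN := injNorm_nonneg hp0 T
  -- the norm of a signed sum
  have h1 : ∀ ε : Fin r → Bool, pn p (∑ j, sg (ε j) • y j) ≤ r := by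
    intro ε
    refine (Finset.le_sum_of_subadditive (pn p) (pn_zero hp0).le (fun a b => pn_add_le hp a b) _ _).trans ?_
    calc ∑ j, pn p (sg (ε j) • y j) ≤ ∑ _j : Fin r, (1 : ℝ) := by
          refine Finset.sum_le_sum fun j _ => ?_
          rw [pn_smul hp0, pol_sg_abs, one_mul]
          exact hy j
      _ = r := by simp
  have h2 : ∀ ε : Fin r → Bool, |(∏ j, sg (ε j)) * pairing T (∑ j, sg (ε j) • y j)|
      ≤ (r : ℝ) ^ r * injNorm p T := by
    intro ε
    rw [abs_mul, Finset.abs_prod, Finset.prod_eq_one fun j _ => pol_sg_abs (ε j), one_mul]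
    refine (pairing_le hp0 hr T _).trans ?_
    rw [mul_comm]
    exact mul_le_mul_of_nonneg_right (pow_le_pow_left₀ (pn_nonneg p _) (h1 ε) r) hN
  have h3 : |∑ ε : Fin r → Bool, (∏ j, sg (ε j)) * pairing T (∑ j, sg (ε j) • y j)|
      ≤ 2 ^ r * ((r : ℝ) ^ r * injNorm p T) := by
    refine (Finset.abs_sum_le_sum_abs _ _).trans ?_
    refine (Finset.sum_le_sum fun ε _ => h2 ε).trans ?_
    rw [Finset.sum_const, nsmul_eq_mul]
    simp
  rw [pol_identity hT y, abs_mul, abs_mul, abs_of_nonneg (by positivity : (0 : ℝ) ≤ 2 ^ r),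
    abs_of_nonneg (by positivity : (0 : ℝ) ≤ (Fintype.card {m : Fin r → Fin r // Function.Bijective m} : ℝ))] at h3
  have h4 : (1 : ℝ) ≤ (Fintype.card {m : Fin r → Fin r // Function.Bijective m} : ℝ) := by
    have : 0 < Fintype.card {m : Fin r → Fin r // Function.Bijective m} :=
      Fintype.card_pos_iff.2 ⟨⟨id, Function.bijective_id⟩⟩
    exact_mod_cast this
  have h5 : (2 : ℝ) ^ r * |ML T y| ≤ 2 ^ r * ((r : ℝ) ^ r * injNorm p T) :=
    (le_mul_of_one_le_left (by positivity) h4).trans h3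
  exact le_of_mul_le_mul_left h5 (by positivity)

end Pool.Agent.InjB
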