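import Pool.Agent.InjB.Defs

/-!
# MP_e7fc82_pr, module SNCK: self-normalised non-commutative Khintchine inequality (helper41, proof helper69)
-/

namespace Pool.Agent.InjB

open Finset MeasureTheory ProbabilityTheory Matrix
open Pool.Agent.InjP
open Pool.Agent.SymASQ (sg)

namespace SNCKaux

variable {D n : ℕ}

lemma diag_conj_mul {U : Matrix (Fin D) (Fin D) ℝ} (hU : Uᵀ * U = 1) (α γ : Fin D → ℝ) :
    (U * diagonal α * Uᵀ) * (U * diagonal γ * Uᵀ) = U * diagonal (fun k => α k * γ k) * Uᵀ := by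
  have h : (U * diagonal α * Uᵀ) * (U * diagonal γ * Uᵀ) =
      U * diagonal α * (Uᵀ * U) * diagonal γ * Uᵀ := by
    simp only [Matrix.mul_assoc]
  rw [h, hU, Matrix.mul_one, Matrix.mul_assoc U (diagonal α) (diagonal γ), Matrix.diagonal_mul_diagonal]

lemma diag_conj_transpose (U : Matrix (Fin D) (Fin D) ℝ) (α : Fin D → ℝ) :
    (U * diagonal α * Uᵀ)ᵀ = U * diagonal α * Uᵀ := by
  rw [Matrix.transpose_mul, Matrix.transpose_mul, Matrix.transpose_transpose, Matrix.diagonal_transpose,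
    Matrix.mul_assoc]

lemma diag_conj_form (U : Matrix (Fin D) (Fin D) ℝ) (α : Fin D → ℝ) (x : Fin D → ℝ) :
    x ⬝ᵥ ((U * diagonal α * Uᵀ) *ᵥ x) = ∑ k, α k * (Uᵀ *ᵥ x) k ^ 2 := by
  rw [← Matrix.mulVec_mulVec, ← Matrix.mulVec_mulVec, Matrix.dotProduct_mulVec, ← Matrix.mulVec_transpose]
  unfold dotProduct
  refine Finset.sum_congr rfl fun k _ => ?_
  rw [Matrix.mulVec_diagonal]
  ring

lemma norm_U {U : Matrix (Fin D) (Fin D) ℝ} (hU' : U * Uᵀ = 1) (x : Fin D → ℝ) :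
    ∑ k, (Uᵀ *ᵥ x) k ^ 2 = x ⬝ᵥ x := by
  have h : (Uᵀ *ᵥ x) ⬝ᵥ (Uᵀ *ᵥ x) = x ⬝ᵥ x := by
    rw [Matrix.dotProduct_mulVec, ← Matrix.mulVec_transpose, Matrix.transpose_transpose, Matrix.mulVec_mulVec,
      hU', Matrix.one_mulVec]
  rw [← h]
  unfold dotProduct
  exact Finset.sum_congr rfl fun k _ => by ring

lemma sym_dot {M : Matrix (Fin D) (Fin D) ℝ} (hM : Mᵀ = M) (x y : Fin D → ℝ) :
    (M *ᵥ x) ⬝ᵥ y = x ⬝ᵥ (M *ᵥ y) := by
  rw [Matrix.dotProduct_mulVec, ← Matrix.mulVec_transpose, hM]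

lemma form_B (A : Fin n → Matrix (Fin D) (Fin D) ℝ) (hA : ∀ i, (A i)ᵀ = A i) (V : ℝ) (x : Fin D → ℝ) :
    x ⬝ᵥ ((∑ i, A i * A i + V • (1 : Matrix (Fin D) (Fin D) ℝ)) *ᵥ x) =
      ∑ i, (A i *ᵥ x) ⬝ᵥ (A i *ᵥ x) + V * (x ⬝ᵥ x) := by
  rw [Matrix.add_mulVec, dotProduct_add, Matrix.sum_mulVec, dotProduct_sum, Matrix.smul_mulVec,
    Matrix.one_mulVec, dotProduct_smul, smul_eq_mul]
  congr 1
  refine Finset.sum_congr rfl fun i _ => ?_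
  rw [← Matrix.mulVec_mulVec, sym_dot (hA i)]

end SNCKaux

open SNCKaux in
theorem snck_fin {D n : ℕ} (hD : 1 ≤ D) {A : Fin n → Matrix (Fin D) (Fin D) ℝ} (hA : ∀ i, (A i)ᵀ = A i)
    {V : ℝ} (hV : 0 < V) :
    ∃ N : (Fin n → Bool) → ℝ, (∀ e, 0 ≤ N e) ∧
      (∀ e, ∀ ψ : Fin D → ℝ, ψ ⬝ᵥ ψ ≤ 1 → ∑ i, (A i *ᵥ ψ) ⬝ᵥ (A i *ᵥ ψ) ≤ V →
        |∑ i, sg (e i) * (ψ ⬝ᵥ (A i *ᵥ ψ))| ≤ N e) ∧
      ((2 : ℝ) ^ n)⁻¹ * ∑ e, N e ≤ 8 * Real.sqrt (1 + Real.log D) * Real.sqrt V := by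
  set B : Matrix (Fin D) (Fin D) ℝ := ∑ i, A i * A i + V • (1 : Matrix (Fin D) (Fin D) ℝ) with hBdef
  have hBs : Bᵀ = B := by
    rw [hBdef, Matrix.transpose_add, Matrix.transpose_sum, Matrix.transpose_smul, Matrix.transpose_one]
    congr 1
    exact Finset.sum_congr rfl fun i _ => by rw [Matrix.transpose_mul, hA i]
  have hform : ∀ x : Fin D → ℝ, x ⬝ᵥ (B *ᵥ x) = ∑ i, (A i *ᵥ x) ⬝ᵥ (A i *ᵥ x) + V * (x ⬝ᵥ x) :=
    form_B A hA V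
  obtain ⟨U, β, hU, hU', hB⟩ := exists_diag B hBs
  have hβ : ∀ k, V ≤ β k := by
    intro k
    have h1 := hform (U *ᵥ Pi.single k 1)
    rw [hB, diag_conj_form, ← norm_U hU' (U *ᵥ Pi.single k 1)] at h1
    have h2 : Uᵀ *ᵥ (U *ᵥ (Pi.single k (1 : ℝ))) = Pi.single k 1 := by
      rw [Matrix.mulVec_mulVec, hU, Matrix.one_mulVec]
    rw [h2] at h1
    have h3 : ∑ j, β j * (Pi.single k (1 : ℝ) : Fin D → ℝ) j ^ 2 = β k := by
      rw [Finset.sum_eq_single k]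
      · rw [Pi.single_eq_same]; ring
      · intro j _ hj
        rw [Pi.single_eq_of_ne hj]; ring
      · intro h; exact absurd (Finset.mem_univ k) h
    have h4 : ∑ j, (Pi.single k (1 : ℝ) : Fin D → ℝ) j ^ 2 = 1 := by
      rw [Finset.sum_eq_single k]
      · rw [Pi.single_eq_same]; ring
      · intro j _ hj
        rw [Pi.single_eq_of_ne hj]; ring
      · intro h; exact absurd (Finset.mem_univ k) h
    rw [h3, h4] at h1
    have h5 : 0 ≤ ∑ i, (A i *ᵥ (U *ᵥ Pi.single k (1 : ℝ))) ⬝ᵥ (A i *ᵥ (U *ᵥ Pi.single k (1 : ℝ))) :=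
      Finset.sum_nonneg fun i _ => Finset.sum_nonneg fun j _ => mul_self_nonneg _
    linarith
  have hβ0 : ∀ k, 0 < β k := fun k => lt_of_lt_of_le hV (hβ k)
  have hs0 : ∀ k, 0 < Real.sqrt (β k) := fun k => Real.sqrt_pos.2 (hβ0 k)
  set W : Matrix (Fin D) (Fin D) ℝ := U * diagonal (fun k => (Real.sqrt (β k))⁻¹) * Uᵀ with hW
  set W' : Matrix (Fin D) (Fin D) ℝ := U * diagonal (fun k => Real.sqrt (β k)) * Uᵀ with hW'
  have hWt : Wᵀ = W := diag_conj_transpose U _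
  have hWt' : W'ᵀ = W' := diag_conj_transpose U _
  have hone : U * diagonal (fun _ : Fin D => (1 : ℝ)) * Uᵀ = 1 := by
    rw [Matrix.diagonal_one, Matrix.mul_one, hU']
  have hWW' : W * W' = 1 := by
    rw [hW, hW', diag_conj_mul hU, ← hone]
    congr 3
    funext k
    exact inv_mul_cancel₀ (hs0 k).ne'
  have hWW2 : W * B * W = 1 := by
    rw [hB, hW, diag_conj_mul hU, diag_conj_mul hU, ← hone]
    congr 3
    funext k
    have h7 := Real.mul_self_sqrt (hβ0 k).le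
    show (Real.sqrt (β k))⁻¹ * β k * (Real.sqrt (β k))⁻¹ = 1
    calc (Real.sqrt (β k))⁻¹ * β k * (Real.sqrt (β k))⁻¹
        = (Real.sqrt (β k) * Real.sqrt (β k))⁻¹ * β k := by rw [mul_inv]; ring
      _ = 1 := by rw [h7]; exact inv_mul_cancel₀ (hβ0 k).ne'
  have hW'2 : W' * W' = B := by
    rw [hB, hW', diag_conj_mul hU]
    congr 3
    funext k
    exact Real.mul_self_sqrt (hβ0 k).le
  have hWn : ∀ z : Fin D → ℝ, (W *ᵥ z) ⬝ᵥ (W *ᵥ z) ≤ V⁻¹ * (z ⬝ᵥ z) := by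
    intro z
    rw [sym_dot hWt, Matrix.mulVec_mulVec, hW, diag_conj_mul hU, diag_conj_form, ← norm_U hU' z, Finset.mul_sum]
    refine Finset.sum_le_sum fun k _ => ?_
    refine mul_le_mul_of_nonneg_right ?_ (sq_nonneg _)
    rw [← mul_inv, Real.mul_self_sqrt (hβ0 k).le]
    exact inv_anti₀ hV (hβ k)
  clear_value W W'
  set r : ℝ := Real.sqrt (12 * V) with hr
  have hr0 : 0 < r := Real.sqrt_pos.2 (by positivity)
  have hr2 : r * r = 12 * V := Real.mul_self_sqrt (by positivity)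
  set H : Fin n → Matrix (Fin D) (Fin D) ℝ := fun i => r • (W * A i * W) with hH
  have hHt : ∀ i, (H i)ᵀ = H i := by
    intro i
    show (r • (W * A i * W))ᵀ = r • (W * A i * W)
    rw [Matrix.transpose_smul, Matrix.transpose_mul, Matrix.transpose_mul, hWt, hA i, Matrix.mul_assoc]
  have hHx : ∀ i (x : Fin D → ℝ), H i *ᵥ x = r • (W *ᵥ (A i *ᵥ (W *ᵥ x))) := by
    intro i x
    show (r • (W * A i * W)) *ᵥ x = _
    rw [Matrix.smul_mulVec, Matrix.mulVec_mulVec, Matrix.mulVec_mulVec, Matrix.mul_assoc]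
  have hHV : ∀ x : Fin D → ℝ, ∑ i, (H i *ᵥ x) ⬝ᵥ (H i *ᵥ x) ≤ 12 * (x ⬝ᵥ x) := by
    intro x
    have h1 : ∀ i, (H i *ᵥ x) ⬝ᵥ (H i *ᵥ x) ≤ 12 * ((A i *ᵥ (W *ᵥ x)) ⬝ᵥ (A i *ᵥ (W *ᵥ x))) := by
      intro i
      rw [hHx, smul_dotProduct, dotProduct_smul, smul_eq_mul, smul_eq_mul, ← mul_assoc, hr2]
      have h2 := hWn (A i *ᵥ (W *ᵥ x))
      calc 12 * V * ((W *ᵥ (A i *ᵥ (W *ᵥ x))) ⬝ᵥ (W *ᵥ (A i *ᵥ (W *ᵥ x))))
          ≤ 12 * V * (V⁻¹ * ((A i *ᵥ (W *ᵥ x)) ⬝ᵥ (A i *ᵥ (W *ᵥ x)))) :=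
            mul_le_mul_of_nonneg_left h2 (by positivity)
        _ = 12 * ((A i *ᵥ (W *ᵥ x)) ⬝ᵥ (A i *ᵥ (W *ᵥ x))) := by
            field_simp
    refine (Finset.sum_le_sum fun i _ => h1 i).trans ?_
    rw [← Finset.mul_sum]
    refine mul_le_mul_of_nonneg_left ?_ (by norm_num)
    have h3 := hform (W *ᵥ x)
    have h4 : (W *ᵥ x) ⬝ᵥ (B *ᵥ (W *ᵥ x)) = x ⬝ᵥ x := by
      rw [sym_dot hWt, Matrix.mulVec_mulVec, Matrix.mulVec_mulVec, hWW2, Matrix.one_mulVec]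
    have h5 : 0 ≤ (W *ᵥ x) ⬝ᵥ (W *ᵥ x) := Finset.sum_nonneg fun j _ => mul_self_nonneg _
    have h6 : 0 ≤ V * ((W *ᵥ x) ⬝ᵥ (W *ᵥ x)) := mul_nonneg hV.le h5
    linarith
  obtain ⟨m, hm, htr, hmean⟩ := mean_trace hHt hD hHV
  refine ⟨fun e => (trace (RX H e ^ (2 * m))) ^ (1 / (2 * m : ℝ)) * (2 * V / r), ?_, ?_, ?_⟩
  · intro e
    exact mul_nonneg (Real.rpow_nonneg (htr e) _) (by positivity)
  · intro e ψ hψ hψ2
    have h1 := qf_pow_le (RX_transpose hHt e) hm (W' *ᵥ ψ)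
    have hWψ : W *ᵥ (W' *ᵥ ψ) = ψ := by
      rw [Matrix.mulVec_mulVec, hWW', Matrix.one_mulVec]
    have h2 : (W' *ᵥ ψ) ⬝ᵥ (RX H e *ᵥ (W' *ᵥ ψ)) = r * ∑ i, sg (e i) * (ψ ⬝ᵥ (A i *ᵥ ψ)) := by
      rw [dot_RX, Finset.mul_sum]
      refine Finset.sum_congr rfl fun i _ => ?_
      rw [hHx, dotProduct_smul, smul_eq_mul, ← sym_dot hWt, hWψ]
      ring
    have h3 : (W' *ᵥ ψ) ⬝ᵥ (W' *ᵥ ψ) ≤ 2 * V := by
      rw [sym_dot hWt', Matrix.mulVec_mulVec, hW'2, hform ψ]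
      nlinarith
    rw [h2, abs_mul, abs_of_pos hr0] at h1
    have h4 : 0 ≤ (trace (RX H e ^ (2 * m))) ^ (1 / (2 * m : ℝ)) := Real.rpow_nonneg (htr e) _
    have h5 := h1.trans (mul_le_mul_of_nonneg_left h3 h4)
    show |∑ i, sg (e i) * (ψ ⬝ᵥ (A i *ᵥ ψ))| ≤ (trace (RX H e ^ (2 * m))) ^ (1 / (2 * m : ℝ)) * (2 * V / r)
    rw [← mul_div_assoc, le_div_iff₀ hr0]
    linarith
  · rw [← Finset.sum_mul, ← mul_assoc]
    have hlog : 0 ≤ Real.sqrt (1 + Real.log D) := Real.sqrt_nonneg _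
    have hsV : 0 < Real.sqrt V := Real.sqrt_pos.2 hV
    have hr3 : r = Real.sqrt 12 * Real.sqrt V := Real.sqrt_mul (by norm_num) V
    have h12 : (3 : ℝ) ≤ Real.sqrt 12 := Real.le_sqrt_of_sq_le (by norm_num)
    have hVV : Real.sqrt V * Real.sqrt V = V := Real.mul_self_sqrt hV.le
    have h6 : 2 * V / r ≤ 2 / 3 * Real.sqrt V := by
      rw [div_le_iff₀ hr0, hr3]
      nlinarith [mul_pos hsV hsV]
    calc (((2 : ℝ) ^ n)⁻¹ * ∑ e, (trace (RX H e ^ (2 * m))) ^ (1 / (2 * m : ℝ))) * (2 * V / r)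
        ≤ (12 * Real.sqrt (1 + Real.log D)) * (2 * V / r) :=
          mul_le_mul_of_nonneg_right hmean (by positivity)
      _ ≤ (12 * Real.sqrt (1 + Real.log D)) * (2 / 3 * Real.sqrt V) :=
          mul_le_mul_of_nonneg_left h6 (by positivity)
      _ = 8 * Real.sqrt (1 + Real.log D) * Real.sqrt V := by ring

theorem snck {P : Type} [Fintype P] [DecidableEq P] [Nonempty P] {n : ℕ} {A : Fin n → Matrix P P ℝ}
    (hA : ∀ i, (A i)ᵀ = A i) {V : ℝ} (hV : 0 < V) :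
    ∃ N : (Fin n → Bool) → ℝ, (∀ e, 0 ≤ N e) ∧
      (∀ e, ∀ ψ : P → ℝ, ψ ⬝ᵥ ψ ≤ 1 → ∑ i, (A i *ᵥ ψ) ⬝ᵥ (A i *ᵥ ψ) ≤ V →
        |∑ i, sg (e i) * (ψ ⬝ᵥ (A i *ᵥ ψ))| ≤ N e) ∧
      ((2 : ℝ) ^ n)⁻¹ * ∑ e, N e ≤
        8 * Real.sqrt (1 + Real.log (Fintype.card P)) * Real.sqrt V := by
  set f : P ≃ Fin (Fintype.card P) := Fintype.equivFin P with hf
  have hD : 1 ≤ Fintype.card P := Fintype.card_pos
  set A' : Fin n → Matrix (Fin (Fintype.card P)) (Fin (Fintype.card P)) ℝ :=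
    fun i => (A i).submatrix f.symm f.symm with hA'def
  have hA' : ∀ i, (A' i)ᵀ = A' i := by
    intro i
    show ((A i).submatrix f.symm f.symm)ᵀ = (A i).submatrix f.symm f.symm
    rw [Matrix.transpose_submatrix, hA i]
  obtain ⟨N, h1, h2, h3⟩ := snck_fin hD hA' hV
  have hdot : ∀ x y : P → ℝ, (x ∘ f.symm) ⬝ᵥ (y ∘ f.symm) = x ⬝ᵥ y := by
    intro x y
    unfold dotProduct
    exact Equiv.sum_comp f.symm (fun k => x k * y k)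
  have hmv : ∀ i (x : P → ℝ), A' i *ᵥ (x ∘ f.symm) = (A i *ᵥ x) ∘ f.symm := by
    intro i x
    show (A i).submatrix f.symm f.symm *ᵥ (x ∘ f.symm) = _
    rw [Matrix.submatrix_mulVec_equiv]
    congr 2
    funext k
    simp
  refine ⟨N, h1, ?_, h3⟩
  intro e ψ hψ hψ2
  have h4 := h2 e (ψ ∘ f.symm) (by rw [hdot]; exact hψ) (by
    simp only [hmv, hdot]
    exact hψ2)
  simp only [hmv, hdot] at h4
  exact h4

end Pool.Agent.InjB
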