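import Pool.Agent.InjB.Sec
import Pool.Agent.InjB.Ext
import Pool.Agent.InjB.CtrB
import Pool.Agent.InjB.SNCK

/-!
# MP_e7fc82_pr, module Rad: the Rademacher bound for even `r` (helper41)

`P = max p (2 s)`, `lam = d ^ (2 / p - 2 / P) ≥ 1`, `q = ⌈d ^ (1 - 2 / P)⌉₊ ≥ 1`, `v ^ 2 = lam / q`; for `pn p x ≤ 1`:
`|x|_2 ^ 2 ≤ d ^ (1 - 2 / p)`, so `v ^ 2 |x|_2 ^ 2 ≤ 1`. `ψ = bosV s q (extV v x)`, `A i = bosM q (extT (T i))`:
`⟨ψ, A i ψ⟩ = q ^ s * v ^ (2 s) * pairing (T i) x = lam ^ s * pairing (T i) x`, and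
`|A i ψ|² ≤ ∑ C, q ^ (2 s - |C|) * (v²) ^ (2 s - |C|) * ∑ ctr (T i) x C ² = ∑ C, lam ^ (2 s - |C|) * (..)
≤ lam ^ (2 s) * K_s * injNorm p (T i) ^ 2` as `lam ^ (-c) * d ^ max 0 (2 c / p - 1) ≤ 1`.
-/

namespace Pool.Agent.InjB

open Finset MeasureTheory ProbabilityTheory Matrix
open Pool.Agent.InjP
open Pool.Agent.SymASQ (sg)

/-- the exponent inequality -/
lemma rad_exp {s c d : ℕ} (hs : 1 ≤ s) (hd : 1 ≤ d) (hc : c ≤ s) {p : ℝ} (hp : 2 ≤ p) :
    (d : ℝ) ^ max 0 (2 * (c : ℝ) / p - 1) ≤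
      ((d : ℝ) ^ (2 / p - 2 / max p (s + s : ℕ))) ^ c := by
  have hd1 : (1 : ℝ) ≤ d := by exact_mod_cast hd
  have hp0 : 0 < p := by linarith
  have hs0 : (1 : ℝ) ≤ s := by exact_mod_cast hs
  have hc' : (c : ℝ) ≤ s := by exact_mod_cast hc
  have hc0 : (0 : ℝ) ≤ c := Nat.cast_nonneg c
  rw [← Real.rpow_natCast, ← Real.rpow_mul (by linarith)]
  refine Real.rpow_le_rpow_of_exponent_le hd1 ?_
  push_cast
  rcases le_total p ((s : ℝ) + s) with h | h
  · rw [max_eq_right h]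
    have h1 : 2 / ((s : ℝ) + s) = 1 / s := by field_simp; ring
    rw [h1]
    refine max_le ?_ ?_
    · refine mul_nonneg ?_ hc0
      rw [sub_nonneg, div_le_div_iff₀ (by linarith) hp0]
      linarith
    · have h2 : 1 / (s : ℝ) * c ≤ 1 := by
        rw [one_div, inv_mul_le_iff₀ (by linarith)]
        linarith
      have h3 : (2 / p - 1 / (s : ℝ)) * c = 2 * c / p - 1 / (s : ℝ) * c := by ring
      rw [h3]
      linarith
  · rw [max_eq_left h]
    refine max_le (by simp) ?_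
    rw [sub_self, zero_mul, sub_nonpos, div_le_one hp0]
    linarith

/-- first and second moment of the lifted operator -/
lemma rad_moments {s d q : ℕ} (hs : 1 ≤ s) (hd : 1 ≤ d) (hq : 1 ≤ q) {p v lam : ℝ} (hp : 2 ≤ p)
    (hlam : lam = (d : ℝ) ^ (2 / p - 2 / max p (s + s : ℕ))) (hv : v ^ 2 * q = lam)
    (hv1 : v ^ 2 * ((d : ℝ) ^ (1 / 2 - 1 / p)) ^ 2 ≤ 1)
    {T : (Fin (s + s) → Fin d) → ℝ} (hT : IsSymT T) {x : Fin d → ℝ} (hx : pn p x ≤ 1) :
    bosV s q (extV v x) ⬝ᵥ bosV s q (extV v x) = 1 ∧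
    bosV s q (extV v x) ⬝ᵥ (bosM q (extT T) *ᵥ bosV s q (extV v x)) = lam ^ s * pairing T x ∧
    (bosM q (extT T) *ᵥ bosV s q (extV v x)) ⬝ᵥ (bosM q (extT T) *ᵥ bosV s q (extV v x)) ≤
      lam ^ (2 * s) * (4 ^ s * (((s + s : ℕ) : ℝ) ^ (s + s)) ^ 2) * injNorm p T ^ 2 := by
  have hd1 : (1 : ℝ) ≤ d := by exact_mod_cast hd
  have hp0 : 0 < p := by linarith
  have hlam1 : 1 ≤ lam := by
    rw [hlam]
    refine Real.one_le_rpow hd1 ?_
    rw [sub_nonneg]
    exact div_le_div_of_nonneg_left (by norm_num) hp0 (le_max_left _ _)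
  have hu1 : v ^ 2 * ∑ t, x t ^ 2 ≤ 1 := by
    have h1 := sum_sq_le hp hd x
    have h2 : pn p x ^ 2 ≤ 1 := pow_le_one₀ (pn_nonneg p x) hx
    have h3 : ∑ t, x t ^ 2 ≤ ((d : ℝ) ^ (1 / 2 - 1 / p)) ^ 2 :=
      h1.trans (mul_le_of_le_one_right (sq_nonneg _) h2)
    exact (mul_le_mul_of_nonneg_left h3 (sq_nonneg v)).trans hv1
  have hu := extV_sq hu1
  refine ⟨bosV_dot hu, ?_, ?_⟩
  · rw [bosM_expect _ hu, pairing_ext, ← mul_assoc, ← hv, mul_pow, ← pow_mul]
    ring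
  · refine (bosM_second _ hu hq).trans ?_
    have hterm : ∀ C ∈ (univ : Finset (Finset (Fin s))),
        (q : ℝ) ^ (2 * s - C.card) * ∑ i, ctr (extT T) (extV v x) C i ^ 2 ≤
        lam ^ (2 * s) * (3 ^ C.card * (((s + s : ℕ) : ℝ) ^ (s + s) * injNorm p T) ^ 2) := by
      intro C _
      have hC : C.card ≤ s := by simpa using C.card_le_univ
      have h1 := ctr_le hs hd (by linarith : (1 : ℝ) ≤ p) hT hx C
      rw [ctr_ext_sum, ← mul_assoc, ← mul_pow, mul_comm (q : ℝ), hv]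
      have h2 := rad_exp (c := C.card) hs hd hC hp
      rw [← hlam] at h2
      have h0 : 0 ≤ 3 ^ C.card * (((s + s : ℕ) : ℝ) ^ (s + s) * injNorm p T) ^ 2 := by positivity
      calc lam ^ (2 * s - C.card) * ∑ i, ctr T x C i ^ 2
          ≤ lam ^ (2 * s - C.card) * (3 ^ C.card * (((s + s : ℕ) : ℝ) ^ (s + s) * injNorm p T) ^ 2 *
            (d : ℝ) ^ max 0 (2 * (C.card : ℝ) / p - 1)) := by gcongr
        _ ≤ lam ^ (2 * s - C.card) * (3 ^ C.card * (((s + s : ℕ) : ℝ) ^ (s + s) * injNorm p T) ^ 2 *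
            lam ^ C.card) := by gcongr
        _ = lam ^ (2 * s - C.card + C.card) *
            (3 ^ C.card * (((s + s : ℕ) : ℝ) ^ (s + s) * injNorm p T) ^ 2) := by
            rw [pow_add]; ring
        _ = _ := by rw [Nat.sub_add_cancel (by omega)]
    refine (Finset.sum_le_sum hterm).trans (le_of_eq ?_)
    rw [← Finset.mul_sum, ← Finset.sum_mul]
    have h4 : ∑ C : Finset (Fin s), (3 : ℝ) ^ C.card = 4 ^ s := by
      have := Finset.sum_pow_mul_eq_add_pow (3 : ℝ) 1 (univ : Finset (Fin s))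
      simp only [one_pow, mul_one, Finset.card_univ, Fintype.card_fin, Finset.powerset_univ] at this
      rw [this]
      norm_num
    rw [h4]
    ring

theorem rad_even {s d n : ℕ} (hs : 1 ≤ s) (hd : 1 ≤ d) {p : ℝ} (hp : 2 ≤ p)
    {T : Fin n → (Fin (s + s) → Fin d) → ℝ} (hT : ∀ i, IsSymT (T i)) :
    ∑ e : Fin n → Bool, injNorm p (∑ i, sg (e i) • T i) ≤
      2 ^ n * ((100 * 6 ^ s * ((s + s : ℕ) : ℝ) ^ (s + s + 1)) * Real.sqrt (1 + Real.log d) *
        (d : ℝ) ^ (1 / 2 - 1 / max p (s + s : ℕ)) * Real.sqrt (∑ i, injNorm p (T i) ^ 2)) := by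
  have hd1 : (1 : ℝ) ≤ d := by exact_mod_cast hd
  have hd0 : (0 : ℝ) < d := by linarith
  have hp0 : 0 < p := by linarith
  have hss : s + s ≠ 0 := by omega
  have hs1 : (1 : ℝ) ≤ s := by exact_mod_cast hs
  set P : ℝ := max p (s + s : ℕ) with hP
  have hP2 : 2 ≤ P := hp.trans (le_max_left _ _)
  have hP0 : 0 < P := by linarith
  set lam : ℝ := (d : ℝ) ^ (2 / p - 2 / P) with hlam
  have hlam1 : 1 ≤ lam := by
    refine Real.one_le_rpow hd1 ?_
    rw [sub_nonneg]
    exact div_le_div_of_nonneg_left (by norm_num) hp0 (le_max_left _ _)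
  have hlam0 : 0 < lam := by linarith
  set Q : ℝ := (d : ℝ) ^ (1 - 2 / P) with hQ
  have hQ1 : 1 ≤ Q := by
    refine Real.one_le_rpow hd1 ?_
    rw [sub_nonneg, div_le_one hP0]
    exact hP2
  set q : ℕ := ⌈Q⌉₊ with hq
  have hqQ : Q ≤ q := Nat.le_ceil Q
  have hq2 : (q : ℝ) ≤ 2 * Q := by
    have := Nat.ceil_lt_add_one (by linarith : 0 ≤ Q)
    linarith
  have hqR : (1 : ℝ) ≤ q := hQ1.trans hqQ
  have hq1 : 1 ≤ q := by exact_mod_cast hqR
  set v : ℝ := Real.sqrt (lam / q) with hv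
  have hv2 : v ^ 2 = lam / q := Real.sq_sqrt (by positivity)
  have hvq : v ^ 2 * q = lam := by rw [hv2]; field_simp
  have hv1 : v ^ 2 * ((d : ℝ) ^ (1 / 2 - 1 / p)) ^ 2 ≤ 1 := by
    have h1 : lam * ((d : ℝ) ^ (1 / 2 - 1 / p)) ^ 2 = Q := by
      rw [hlam, hQ, ← Real.rpow_natCast, ← Real.rpow_mul hd0.le, ← Real.rpow_add hd0]
      congr 1
      push_cast
      ring
    rw [hv2, div_mul_eq_mul_div, h1, div_le_one (by linarith)]
    exact hqQ
  set W : ℝ := ∑ i, injNorm p (T i) ^ 2 with hW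
  have hW0 : 0 ≤ W := Finset.sum_nonneg fun _ _ => sq_nonneg _
  rcases hW0.eq_or_lt with h0 | hWpos
  · have hz : ∀ i, injNorm p (T i) = 0 := by
      intro i
      have := (Finset.sum_eq_zero_iff_of_nonneg (fun i _ => sq_nonneg (injNorm p (T i)))).1 h0.symm i
        (mem_univ i)
      exact pow_eq_zero_iff (two_ne_zero) |>.1 this
    have h1 : ∀ e : Fin n → Bool, injNorm p (∑ i, sg (e i) • T i) ≤ 0 := by
      intro e
      refine (injNorm_sum_le hp0 hss T (fun i => sg (e i))).trans ?_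
      simp [hz]
    refine (Finset.sum_nonpos fun e _ => h1 e).trans ?_
    positivity
  · set K : ℝ := 4 ^ s * (((s + s : ℕ) : ℝ) ^ (s + s)) ^ 2 with hK
    have hK0 : 0 < K := by
      have : (0 : ℝ) < ((s + s : ℕ) : ℝ) := by exact_mod_cast Nat.pos_of_ne_zero hss
      positivity
    set V : ℝ := lam ^ (2 * s) * K * W with hV
    have hV0 : 0 < V := by positivity
    have hA : ∀ i, (bosM q (extT (T i)))ᵀ = bosM q (extT (T i)) := fun i =>
      bosM_transpose (extT_sym (hT i))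
    obtain ⟨N, hN0, hN, hNm⟩ := snck (P := Fin s → Fin q → Fin (d + 1)) hA hV0
    have key : ∀ e : Fin n → Bool, injNorm p (∑ i, sg (e i) • T i) ≤ (lam ^ s)⁻¹ * N e := by
      intro e
      refine csSup_le ⟨_, 0, by rw [pn_zero hp0]; exact zero_le_one, rfl⟩ ?_
      rintro _ ⟨x, hx, rfl⟩
      have hm := fun i => rad_moments hs hd hq1 hp hlam hvq hv1 (hT i) hx
      have h1 := hN e (bosV s q (extV v x)) ?_ ?_
      · rw [pairing_sum, le_inv_mul_iff₀ (by positivity)]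
        refine le_trans (le_of_eq ?_) h1
        rw [← abs_of_pos (show 0 < lam ^ s by positivity), ← abs_mul, Finset.mul_sum]
        congr 1
        refine Finset.sum_congr rfl fun i _ => ?_
        rw [(hm i).2.1]
        ring
      · rcases Nat.eq_zero_or_pos n with h | h
        · have := bosV_dot (s := s) (q := q) (extV_sq (v := v) (x := x) ?_)
          · exact this.le
          · have h1 := sum_sq_le hp hd x
            have h2 : pn p x ^ 2 ≤ 1 := pow_le_one₀ (pn_nonneg p x) hx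
            have h3 : ∑ t, x t ^ 2 ≤ ((d : ℝ) ^ (1 / 2 - 1 / p)) ^ 2 :=
              h1.trans (mul_le_of_le_one_right (sq_nonneg _) h2)
            exact (mul_le_mul_of_nonneg_left h3 (sq_nonneg v)).trans hv1
        · exact (hm ⟨0, h⟩).1.le
      · refine (Finset.sum_le_sum fun i _ => (hm i).2.2).trans (le_of_eq ?_)
        rw [← Finset.mul_sum, ← hW, ← hK]
    have hcard : Real.log (Fintype.card (Fin s → Fin q → Fin (d + 1))) =
        s * q * Real.log ((d : ℝ) + 1) := by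
      simp only [Fintype.card_pi, Fintype.card_fin, Finset.prod_const, Finset.card_univ]
      push_cast
      rw [Real.log_pow, Real.log_pow]
      ring
    have hlogd : 0 ≤ Real.log d := Real.log_nonneg hd1
    have hlog1 : Real.log ((d : ℝ) + 1) ≤ 1 + Real.log d := by
      have h1 : Real.log ((d : ℝ) + 1) ≤ Real.log (2 * d) :=
        Real.log_le_log (by linarith) (by linarith)
      rw [Real.log_mul (by norm_num) hd0.ne'] at h1
      have := Real.log_two_lt_d9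
      linarith
    have hD : 1 + Real.log (Fintype.card (Fin s → Fin q → Fin (d + 1))) ≤
        (3 * s) * Q * (1 + Real.log d) := by
      rw [hcard]
      have h1 : (s : ℝ) * q * Real.log ((d : ℝ) + 1) ≤ s * (2 * Q) * (1 + Real.log d) := by
        have : 0 ≤ Real.log ((d : ℝ) + 1) := Real.log_nonneg (by linarith)
        gcongr
      have h2 : 1 ≤ s * Q * (1 + Real.log d) := by
        have : 1 ≤ s * Q := by nlinarith
        nlinarith
      linarith
    have hsqrt : Real.sqrt (1 + Real.log (Fintype.card (Fin s → Fin q → Fin (d + 1)))) ≤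
        (3 * s) * (d : ℝ) ^ (1 / 2 - 1 / P) * Real.sqrt (1 + Real.log d) := by
      refine (Real.sqrt_le_sqrt hD).trans ?_
      rw [Real.sqrt_mul (by positivity), Real.sqrt_mul (by positivity)]
      have h1 : Real.sqrt Q = (d : ℝ) ^ (1 / 2 - 1 / P) := by
        rw [hQ, Real.sqrt_eq_rpow, ← Real.rpow_mul hd0.le]
        congr 1
        ring
      rw [h1]
      have h2 : Real.sqrt (3 * (s : ℝ)) ≤ 3 * s := by
        rw [Real.sqrt_le_left (by positivity)]
        nlinarith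
      gcongr
    have hsV : Real.sqrt V = lam ^ s * (2 ^ s * ((s + s : ℕ) : ℝ) ^ (s + s)) * Real.sqrt W := by
      rw [hV, Real.sqrt_mul (by positivity)]
      congr 1
      have : lam ^ (2 * s) * K = (lam ^ s * (2 ^ s * ((s + s : ℕ) : ℝ) ^ (s + s))) ^ 2 := by
        rw [hK, mul_pow, mul_pow, ← pow_mul, ← pow_mul, show (4 : ℝ) = 2 ^ 2 by norm_num, ← pow_mul]
        ring
      rw [this, Real.sqrt_sq (by positivity)]
    have hsum : ∑ e, N e ≤ 2 ^ n * (8 * Real.sqrt (1 + Real.log (Fintype.card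
        (Fin s → Fin q → Fin (d + 1)))) * Real.sqrt V) := by
      rwa [inv_mul_le_iff₀ (by positivity)] at hNm
    calc ∑ e : Fin n → Bool, injNorm p (∑ i, sg (e i) • T i)
        ≤ ∑ e, (lam ^ s)⁻¹ * N e := Finset.sum_le_sum fun e _ => key e
      _ = (lam ^ s)⁻¹ * ∑ e, N e := by rw [Finset.mul_sum]
      _ ≤ (lam ^ s)⁻¹ * (2 ^ n * (8 * ((3 * s) * (d : ℝ) ^ (1 / 2 - 1 / P) *
          Real.sqrt (1 + Real.log d)) * (lam ^ s * (2 ^ s * ((s + s : ℕ) : ℝ) ^ (s + s)) *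
          Real.sqrt W))) := by
          rw [← hsV]
          refine mul_le_mul_of_nonneg_left (hsum.trans ?_) (by positivity)
          gcongr
      _ = 2 ^ n * ((24 * 2 ^ s * (s * ((s + s : ℕ) : ℝ) ^ (s + s))) * Real.sqrt (1 + Real.log d) *
        (d : ℝ) ^ (1 / 2 - 1 / P) * Real.sqrt W) := by
          field_simp
          ring
      _ ≤ _ := by
          have h1 : (s : ℝ) * ((s + s : ℕ) : ℝ) ^ (s + s) ≤ ((s + s : ℕ) : ℝ) ^ (s + s + 1) := by
            rw [pow_succ, mul_comm]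
            have : (s : ℝ) ≤ ((s + s : ℕ) : ℝ) := by push_cast; linarith
            gcongr
          have h2 : (2 : ℝ) ^ s ≤ 6 ^ s := pow_le_pow_left₀ (by norm_num) (by norm_num) s
          gcongr
          norm_num

end Pool.Agent.InjB
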