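import Pool.Agent.InjB.Kit

/-!
# MP_e7fc82_pr, module Sec2: second moment of the operator of a `2s`-tensor (helper30 for helper41)
-/

namespace Pool.Agent.InjB

open Finset MeasureTheory ProbabilityTheory Matrix
open Pool.Agent.InjP
open Pool.Agent.SymASQ (sg)

variable {s q N : ℕ}

/-- contraction of the second half of the slots with `u` -/
private def wvec (T : (Fin (s + s) → Fin N) → ℝ) (u : Fin N → ℝ) (j : Fin s → Fin N) : ℝ :=
  ∑ k : Fin s → Fin N, T (Fin.append j k) * ∏ a, u (k a)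

private theorem sec2_mulVec (T : (Fin (s + s) → Fin N) → ℝ) (u : Fin N → ℝ) (φ : Fin s → Fin q → Fin N) :
    (bosM q T *ᵥ bosV s q u) φ = ∑ j, wvec T u j * ∏ a, excV u (j a) (φ a) := by
  simp only [Matrix.mulVec, dotProduct, bosM, bosV, Matrix.of_apply, wvec]
  have h1 : ∀ (j k : Fin s → Fin N), ∑ φ' : Fin s → Fin q → Fin N,
      (∏ a, hopE (j a) (k a) (φ a) (φ' a)) * ∏ a, prodV u (φ' a) = ∏ a, (u (k a) * excV u (j a) (φ a)) := by
    intro j k
    have h2 : ∀ a : Fin s, ∑ β : Fin q → Fin N, hopE (j a) (k a) (φ a) β * prodV u β = u (k a) * excV u (j a) (φ a) := by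
      intro a
      have h3 := congrFun (hopE_mulVec (q := q) u (j a) (k a)) (φ a)
      simpa [Matrix.mulVec, dotProduct] using h3
    rw [← Finset.prod_congr rfl (fun a _ => h2 a), Finset.prod_univ_sum, Fintype.piFinset_univ]
    exact Finset.sum_congr rfl fun φ' _ => (Finset.prod_mul_distrib).symm
  calc ∑ φ' : Fin s → Fin q → Fin N, (∑ j : Fin s → Fin N, ∑ k : Fin s → Fin N,
        T (Fin.append j k) * ∏ a, hopE (j a) (k a) (φ a) (φ' a)) * ∏ a, prodV u (φ' a) =
      ∑ j : Fin s → Fin N, ∑ k : Fin s → Fin N, T (Fin.append j k) *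
        ∑ φ' : Fin s → Fin q → Fin N, (∏ a, hopE (j a) (k a) (φ a) (φ' a)) * ∏ a, prodV u (φ' a) := by
        simp only [Finset.sum_mul, Finset.mul_sum]
        rw [Finset.sum_comm]
        refine Finset.sum_congr rfl fun j _ => ?_
        rw [Finset.sum_comm]
        refine Finset.sum_congr rfl fun k _ => Finset.sum_congr rfl fun φ' _ => ?_
        ring
    _ = _ := by
        refine Finset.sum_congr rfl fun j _ => ?_
        rw [Finset.sum_mul]
        refine Finset.sum_congr rfl fun k _ => ?_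
        rw [h1, Finset.prod_mul_distrib]
        ring

private theorem sec2_form (T : (Fin (s + s) → Fin N) → ℝ) {u : Fin N → ℝ} (hu : ∑ i, u i ^ 2 = 1) :
    (bosM q T *ᵥ bosV s q u) ⬝ᵥ (bosM q T *ᵥ bosV s q u) = ∑ j, ∑ j', wvec T u j * wvec T u j' *
      ∏ a, ((if j a = j' a then (q : ℝ) else 0) + (q : ℝ) * ((q : ℝ) - 1) * (u (j a) * u (j' a))) := by
  have h1 : ∀ j j' : Fin s → Fin N, ∑ φ : Fin s → Fin q → Fin N,
      (∏ a, excV u (j a) (φ a)) * (∏ a, excV u (j' a) (φ a)) =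
      ∏ a, ((if j a = j' a then (q : ℝ) else 0) + (q : ℝ) * ((q : ℝ) - 1) * (u (j a) * u (j' a))) := by
    intro j j'
    rw [← Finset.prod_congr rfl (fun a _ => exc_exc (q := q) hu (j a) (j' a))]
    simp only [dotProduct]
    rw [Finset.prod_univ_sum, Fintype.piFinset_univ]
    exact Finset.sum_congr rfl fun φ' _ => (Finset.prod_mul_distrib).symm
  simp only [dotProduct, sec2_mulVec]
  calc ∑ φ : Fin s → Fin q → Fin N, (∑ j, wvec T u j * ∏ a, excV u (j a) (φ a)) *
        (∑ j, wvec T u j * ∏ a, excV u (j a) (φ a)) =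
      ∑ j : Fin s → Fin N, ∑ j' : Fin s → Fin N, wvec T u j * wvec T u j' *
        ∑ φ : Fin s → Fin q → Fin N, (∏ a, excV u (j a) (φ a)) * (∏ a, excV u (j' a) (φ a)) := by
        refine (Finset.sum_congr rfl fun φ _ => Finset.sum_mul_sum _ _ _ _).trans ?_
        rw [Finset.sum_comm]
        refine Finset.sum_congr rfl fun j _ => ?_
        rw [Finset.sum_comm]
        refine Finset.sum_congr rfl fun j' _ => ?_
        rw [Finset.mul_sum]
        refine Finset.sum_congr rfl fun φ _ => ?_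
        ring
    _ = _ := by
        refine Finset.sum_congr rfl fun j _ => Finset.sum_congr rfl fun j' _ => ?_
        rw [h1]

/-- the weight of the first half of the slots in `ctr` -/
private def dwt (u : Fin N → ℝ) (C : Finset (Fin s)) (i : {a // a ∈ C} → Fin N) (j : Fin s → Fin N) : ℝ :=
  ∏ a, (if h : a ∈ C then (Pi.single (i ⟨a, h⟩) (1 : ℝ) : Fin N → ℝ) else u) (j a)

private theorem sec2_ctr (T : (Fin (s + s) → Fin N) → ℝ) (u : Fin N → ℝ) (C : Finset (Fin s))
    (i : {a // a ∈ C} → Fin N) : ctr T u C i = ∑ j, wvec T u j * dwt u C i j := by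
  unfold ctr ML
  rw [← (Fin.appendEquiv s s).sum_comp, Fintype.sum_prod_type]
  refine Finset.sum_congr rfl fun j _ => ?_
  rw [wvec, Finset.sum_mul]
  refine Finset.sum_congr rfl fun k _ => ?_
  rw [Fin.prod_univ_add]
  simp only [Fin.appendEquiv, Equiv.coe_fn_mk, Fin.append_left, Fin.append_right]
  rw [dwt]
  ring

private theorem sec2_dwt (u : Fin N → ℝ) (C : Finset (Fin s)) (j j' : Fin s → Fin N) :
    ∑ i, dwt u C i j * dwt u C i j' =
      (∏ a ∈ C, (if j a = j' a then (1 : ℝ) else 0)) * ∏ a ∈ Cᶜ, (u (j a) * u (j' a)) := by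
  have h1 : ∀ (i : {a // a ∈ C} → Fin N) (j : Fin s → Fin N), dwt u C i j =
      (∏ a : {a // a ∈ C}, (Pi.single (i a) (1 : ℝ) : Fin N → ℝ) (j a)) * ∏ a ∈ Cᶜ, u (j a) := by
    intro i j
    rw [dwt, ← Finset.prod_mul_prod_compl C]
    congr 1
    · rw [← Finset.prod_coe_sort]
      refine Finset.prod_congr rfl fun a _ => ?_
      rw [dif_pos a.2]
    · refine Finset.prod_congr rfl fun a ha => ?_
      rw [dif_neg (Finset.mem_compl.1 ha)]
  have h2 : ∑ i : {a // a ∈ C} → Fin N, (∏ a : {a // a ∈ C}, (Pi.single (i a) (1 : ℝ) : Fin N → ℝ) (j a)) *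
      (∏ a : {a // a ∈ C}, (Pi.single (i a) (1 : ℝ) : Fin N → ℝ) (j' a)) =
      ∏ a ∈ C, (if j a = j' a then (1 : ℝ) else 0) := by
    rw [← Finset.prod_coe_sort]
    have h3 : ∀ a : {a // a ∈ C}, (if j a = j' a then (1 : ℝ) else 0) =
        ∑ t : Fin N, (Pi.single t (1 : ℝ) : Fin N → ℝ) (j a) * (Pi.single t (1 : ℝ) : Fin N → ℝ) (j' a) := by
      intro a
      simp only [Pi.single_apply, ite_mul, one_mul, zero_mul]
      rw [Finset.sum_ite_eq]
      simp [eq_comm]
    rw [Finset.prod_congr rfl (fun a _ => h3 a), Finset.prod_univ_sum, Fintype.piFinset_univ]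
    exact Finset.sum_congr rfl fun φ' _ => (Finset.prod_mul_distrib).symm
  rw [← h2, Finset.sum_mul]
  refine Finset.sum_congr rfl fun i _ => ?_
  rw [h1, h1, Finset.prod_mul_distrib]
  ring

theorem bosM_second (T : (Fin (s + s) → Fin N) → ℝ) {u : Fin N → ℝ} (hu : ∑ i, u i ^ 2 = 1)
    (hq : 1 ≤ q) :
    (bosM q T *ᵥ bosV s q u) ⬝ᵥ (bosM q T *ᵥ bosV s q u) ≤
      ∑ C : Finset (Fin s), (q : ℝ) ^ (2 * s - C.card) * ∑ i, ctr T u C i ^ 2 := by
  have hctr : ∀ C : Finset (Fin s), ∑ i, ctr T u C i ^ 2 = ∑ j, ∑ j', wvec T u j * wvec T u j' *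
      ((∏ a ∈ C, (if j a = j' a then (1 : ℝ) else 0)) * ∏ a ∈ Cᶜ, (u (j a) * u (j' a))) := by
    intro C
    calc ∑ i, ctr T u C i ^ 2 = ∑ i, ∑ j, ∑ j', wvec T u j * wvec T u j' * (dwt u C i j * dwt u C i j') := by
          refine Finset.sum_congr rfl fun i _ => ?_
          rw [sec2_ctr, sq, Finset.sum_mul_sum]
          refine Finset.sum_congr rfl fun j _ => Finset.sum_congr rfl fun j' _ => ?_
          ring
      _ = ∑ j, ∑ j', wvec T u j * wvec T u j' * ∑ i, dwt u C i j * dwt u C i j' := by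
          rw [Finset.sum_comm]
          refine Finset.sum_congr rfl fun j _ => ?_
          rw [Finset.sum_comm]
          refine Finset.sum_congr rfl fun j' _ => ?_
          rw [Finset.mul_sum]
      _ = _ := by
          refine Finset.sum_congr rfl fun j _ => Finset.sum_congr rfl fun j' _ => ?_
          rw [sec2_dwt]
  have hexp : (bosM q T *ᵥ bosV s q u) ⬝ᵥ (bosM q T *ᵥ bosV s q u) =
      ∑ C : Finset (Fin s), ((q : ℝ) ^ C.card * ((q : ℝ) * ((q : ℝ) - 1)) ^ (s - C.card)) *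
        ∑ i, ctr T u C i ^ 2 := by
    rw [sec2_form T hu]
    have h1 : ∀ j j' : Fin s → Fin N,
        ∏ a, ((if j a = j' a then (q : ℝ) else 0) + (q : ℝ) * ((q : ℝ) - 1) * (u (j a) * u (j' a))) =
        ∑ C : Finset (Fin s), ((q : ℝ) ^ C.card * ((q : ℝ) * ((q : ℝ) - 1)) ^ (s - C.card)) *
          ((∏ a ∈ C, (if j a = j' a then (1 : ℝ) else 0)) * ∏ a ∈ Cᶜ, (u (j a) * u (j' a))) := by
      intro j j'
      rw [Finset.prod_add, Finset.powerset_univ]
      refine Finset.sum_congr rfl fun C _ => ?_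
      have h2 : ∏ a ∈ C, (if j a = j' a then (q : ℝ) else 0) =
          (q : ℝ) ^ C.card * ∏ a ∈ C, (if j a = j' a then (1 : ℝ) else 0) := by
        rw [← Finset.prod_const, ← Finset.prod_mul_distrib]
        refine Finset.prod_congr rfl fun a _ => ?_
        split_ifs <;> simp
      have h3 : ∏ a ∈ univ \ C, ((q : ℝ) * ((q : ℝ) - 1) * (u (j a) * u (j' a))) =
          ((q : ℝ) * ((q : ℝ) - 1)) ^ (s - C.card) * ∏ a ∈ Cᶜ, (u (j a) * u (j' a)) := by
        rw [← Finset.compl_eq_univ_sdiff, Finset.prod_mul_distrib, Finset.prod_const, Finset.card_compl,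
          Fintype.card_fin]
      rw [h2, h3]
      ring
    calc ∑ j, ∑ j', wvec T u j * wvec T u j' *
          ∏ a, ((if j a = j' a then (q : ℝ) else 0) + (q : ℝ) * ((q : ℝ) - 1) * (u (j a) * u (j' a))) =
        ∑ j, ∑ j', ∑ C : Finset (Fin s), ((q : ℝ) ^ C.card * ((q : ℝ) * ((q : ℝ) - 1)) ^ (s - C.card)) *
          (wvec T u j * wvec T u j' *
          ((∏ a ∈ C, (if j a = j' a then (1 : ℝ) else 0)) * ∏ a ∈ Cᶜ, (u (j a) * u (j' a)))) := by
          refine Finset.sum_congr rfl fun j _ => Finset.sum_congr rfl fun j' _ => ?_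
          rw [h1, Finset.mul_sum]
          refine Finset.sum_congr rfl fun C _ => ?_
          ring
      _ = ∑ C : Finset (Fin s), ∑ j, ∑ j', ((q : ℝ) ^ C.card * ((q : ℝ) * ((q : ℝ) - 1)) ^ (s - C.card)) *
          (wvec T u j * wvec T u j' *
          ((∏ a ∈ C, (if j a = j' a then (1 : ℝ) else 0)) * ∏ a ∈ Cᶜ, (u (j a) * u (j' a)))) := by
          refine (Finset.sum_congr rfl fun j _ => Finset.sum_comm).trans Finset.sum_comm
      _ = _ := by
          refine Finset.sum_congr rfl fun C _ => ?_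
          rw [hctr, Finset.mul_sum]
          refine Finset.sum_congr rfl fun j _ => ?_
          rw [Finset.mul_sum]
  rw [hexp]
  refine Finset.sum_le_sum fun C _ => mul_le_mul_of_nonneg_right ?_ (Finset.sum_nonneg fun i _ => sq_nonneg _)
  have hC : C.card ≤ s := by
    have := Finset.card_le_univ C
    simpa using this
  have hq1 : (1 : ℝ) ≤ q := by exact_mod_cast hq
  have h1 : ((q : ℝ) * ((q : ℝ) - 1)) ^ (s - C.card) ≤ ((q : ℝ) ^ 2) ^ (s - C.card) := by
    refine pow_le_pow_left₀ (mul_nonneg (by linarith) (by linarith)) ?_ _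
    nlinarith
  calc (q : ℝ) ^ C.card * ((q : ℝ) * ((q : ℝ) - 1)) ^ (s - C.card) ≤
      (q : ℝ) ^ C.card * ((q : ℝ) ^ 2) ^ (s - C.card) := mul_le_mul_of_nonneg_left h1 (by positivity)
    _ = (q : ℝ) ^ (2 * s - C.card) := by
        rw [← pow_mul, ← pow_add]
        congr 1
        omega

end Pool.Agent.InjB
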