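import Pool.Agent.InjB.Kit

/-!
# MP_e7fc82_pr, module Sec1: the operator of a `2s`-tensor, transpose and first moment
-/

namespace Pool.Agent.InjB

open Finset MeasureTheory ProbabilityTheory Matrix
open Pool.Agent.InjP
open Pool.Agent.SymASQ (sg)

variable {s q N : ℕ}

/-- sums of products over all functions -/
theorem Sec1_sum_prod {ι κ : Type} [Fintype ι] [DecidableEq ι] [Fintype κ] (f : ι → κ → ℝ) :
    ∑ φ : ι → κ, ∏ a, f a (φ a) = ∏ a, ∑ β, f a β := by
  rw [Finset.prod_univ_sum, Fintype.piFinset_univ]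

/-- sums over the indices of a `2s`-tensor -/
theorem Sec1_append_sum (f : (Fin (s + s) → Fin N) → ℝ) :
    ∑ l, f l = ∑ j : Fin s → Fin N, ∑ k : Fin s → Fin N, f (Fin.append j k) := by
  rw [← Fintype.sum_prod_type']
  symm
  exact Fintype.sum_equiv (Fin.appendEquiv s s) _ _ (fun _ => rfl)

/-- the operator applied to the product vector -/
theorem bosM_mulVec (T : (Fin (s + s) → Fin N) → ℝ) (u : Fin N → ℝ) (φ : Fin s → Fin q → Fin N) :
    (bosM q T *ᵥ bosV s q u) φ =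
      ∑ j : Fin s → Fin N, (∑ k : Fin s → Fin N, T (Fin.append j k) * ∏ a, u (k a)) *
        ∏ a, excV u (j a) (φ a) := by
  have h1 : ∀ j k : Fin s → Fin N, ∑ φ' : Fin s → Fin q → Fin N,
      (∏ a, hopE (j a) (k a) (φ a) (φ' a)) * ∏ a, prodV u (φ' a) =
        (∏ a, u (k a)) * ∏ a, excV u (j a) (φ a) := by
    intro j k
    have e1 : ∀ φ' : Fin s → Fin q → Fin N, (∏ a, hopE (j a) (k a) (φ a) (φ' a)) * ∏ a, prodV u (φ' a) =
        ∏ a, (hopE (j a) (k a) (φ a) (φ' a) * prodV u (φ' a)) := fun φ' => by rw [Finset.prod_mul_distrib]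
    rw [Finset.sum_congr rfl fun φ' _ => e1 φ',
      Sec1_sum_prod (fun a β => hopE (j a) (k a) (φ a) β * prodV u β), ← Finset.prod_mul_distrib]
    refine Finset.prod_congr rfl fun a _ => ?_
    have h2 := congrFun (hopE_mulVec (q := q) u (j a) (k a)) (φ a)
    rw [Pi.smul_apply, smul_eq_mul] at h2
    rw [← h2]
    rfl
  have h2 : (bosM q T *ᵥ bosV s q u) φ = ∑ φ' : Fin s → Fin q → Fin N,
      (∑ j : Fin s → Fin N, ∑ k : Fin s → Fin N, T (Fin.append j k) *
        ∏ a, hopE (j a) (k a) (φ a) (φ' a)) * ∏ a, prodV u (φ' a) := rfl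
  rw [h2]
  simp only [Finset.sum_mul]
  rw [Finset.sum_comm]
  refine Finset.sum_congr rfl fun j _ => ?_
  rw [Finset.sum_comm]
  refine Finset.sum_congr rfl fun k _ => ?_
  have e2 : ∀ φ' : Fin s → Fin q → Fin N, T (Fin.append j k) * (∏ a, hopE (j a) (k a) (φ a) (φ' a)) *
      ∏ a, prodV u (φ' a) = T (Fin.append j k) * ((∏ a, hopE (j a) (k a) (φ a) (φ' a)) * ∏ a, prodV u (φ' a)) :=
    fun φ' => by rw [mul_assoc]
  rw [Finset.sum_congr rfl fun φ' _ => e2 φ', ← Finset.mul_sum, h1, mul_assoc]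

theorem Sec1_flip {T : (Fin (s + s) → Fin N) → ℝ} (hT : IsSymT T) (j k : Fin s → Fin N) :
    T (Fin.append k j) = T (Fin.append j k) := by
  have h : Fin.append k j = Fin.append j k ∘ (finAddFlip : Fin (s + s) ≃ Fin (s + s)) := by
    ext i
    refine Fin.addCases (fun a => ?_) (fun a => ?_) i
    · rw [Function.comp_apply, finAddFlip_apply_castAdd, Fin.append_left, Fin.append_right]
    · rw [Function.comp_apply, finAddFlip_apply_natAdd, Fin.append_left, Fin.append_right]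
  rw [h]
  exact hT _ _

theorem bosM_transpose {T : (Fin (s + s) → Fin N) → ℝ} (hT : IsSymT T) : (bosM q T)ᵀ = bosM q T := by
  ext φ φ'
  have h1 : (bosM q T)ᵀ φ φ' = ∑ j : Fin s → Fin N, ∑ k : Fin s → Fin N,
      T (Fin.append j k) * ∏ a, hopE (j a) (k a) (φ' a) (φ a) := rfl
  have h2 : bosM q T φ φ' = ∑ j : Fin s → Fin N, ∑ k : Fin s → Fin N,
      T (Fin.append j k) * ∏ a, hopE (j a) (k a) (φ a) (φ' a) := rfl
  rw [h1, h2, Finset.sum_comm]
  refine Finset.sum_congr rfl fun j _ => Finset.sum_congr rfl fun k _ => ?_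
  rw [Sec1_flip hT]
  congr 1
  refine Finset.prod_congr rfl fun a _ => ?_
  have h3 := congrFun (congrFun (hopE_transpose (q := q) (j a) (k a)) (φ' a)) (φ a)
  rw [← h3]
  rfl

theorem bosV_dot {u : Fin N → ℝ} (hu : ∑ i, u i ^ 2 = 1) : bosV s q u ⬝ᵥ bosV s q u = 1 := by
  have h1 : bosV s q u ⬝ᵥ bosV s q u = ∑ φ : Fin s → Fin q → Fin N,
      (∏ a, prodV u (φ a)) * ∏ a, prodV u (φ a) := rfl
  have e1 : ∀ φ : Fin s → Fin q → Fin N, (∏ a, prodV u (φ a)) * ∏ a, prodV u (φ a) =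
      ∏ a, (prodV u (φ a) * prodV u (φ a)) := fun φ => by rw [Finset.prod_mul_distrib]
  rw [h1, Finset.sum_congr rfl fun φ _ => e1 φ, Sec1_sum_prod (fun (_ : Fin s) β => prodV u β * prodV u β)]
  apply Finset.prod_eq_one
  intro a _
  exact prodV_dot hu

theorem bosM_expect (T : (Fin (s + s) → Fin N) → ℝ) {u : Fin N → ℝ} (hu : ∑ i, u i ^ 2 = 1) :
    bosV s q u ⬝ᵥ (bosM q T *ᵥ bosV s q u) = (q : ℝ) ^ s * pairing T u := by
  have h1 : bosV s q u ⬝ᵥ (bosM q T *ᵥ bosV s q u) = ∑ φ : Fin s → Fin q → Fin N,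
      (∏ a, prodV u (φ a)) * (bosM q T *ᵥ bosV s q u) φ := rfl
  have h2 : ∀ j : Fin s → Fin N, ∑ φ : Fin s → Fin q → Fin N,
      (∏ a, prodV u (φ a)) * ∏ a, excV u (j a) (φ a) = (q : ℝ) ^ s * ∏ a, u (j a) := by
    intro j
    have e1 : ∀ φ : Fin s → Fin q → Fin N, (∏ a, prodV u (φ a)) * ∏ a, excV u (j a) (φ a) =
        ∏ a, (prodV u (φ a) * excV u (j a) (φ a)) := fun φ => by rw [Finset.prod_mul_distrib]
    rw [Finset.sum_congr rfl fun φ _ => e1 φ, Sec1_sum_prod (fun a β => prodV u β * excV u (j a) β)]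
    have e2 : ∀ a, ∑ β : Fin q → Fin N, prodV u β * excV u (j a) β = q * u (j a) := fun a => prodV_exc hu (j a)
    rw [Finset.prod_congr rfl fun a _ => e2 a, Finset.prod_mul_distrib, Finset.prod_const, Finset.card_univ,
      Fintype.card_fin]
  have h3 : pairing T u = ∑ j : Fin s → Fin N, (∑ k : Fin s → Fin N, T (Fin.append j k) * ∏ a, u (k a)) *
      ∏ a, u (j a) := by
    unfold pairing
    rw [Sec1_append_sum]
    refine Finset.sum_congr rfl fun j _ => ?_
    rw [Finset.sum_mul]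
    refine Finset.sum_congr rfl fun k _ => ?_
    rw [Fin.prod_univ_add]
    simp only [Fin.append_left, Fin.append_right]
    ring
  rw [h1, h3, Finset.mul_sum]
  simp only [bosM_mulVec, Finset.mul_sum]
  rw [Finset.sum_comm]
  refine Finset.sum_congr rfl fun j _ => ?_
  have e3 : ∀ φ : Fin s → Fin q → Fin N, (∏ a, prodV u (φ a)) *
      ((∑ k : Fin s → Fin N, T (Fin.append j k) * ∏ a, u (k a)) * ∏ a, excV u (j a) (φ a)) =
      (∑ k : Fin s → Fin N, T (Fin.append j k) * ∏ a, u (k a)) *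
        ((∏ a, prodV u (φ a)) * ∏ a, excV u (j a) (φ a)) := fun φ => by ring
  rw [Finset.sum_congr rfl fun φ _ => e3 φ, ← Finset.mul_sum, h2]
  ring

end Pool.Agent.InjB
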