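import Pool.Agent.InjB.Fin

/-!
# MP_e7fc82_pr, module Uni: the bound with a constant which depends only on `r` (helper41)
-/

namespace Pool.Agent.InjB

open Finset MeasureTheory ProbabilityTheory Matrix
open Pool.Agent.InjP
open Pool.Agent.SymASQ (sg)

/-- even `r` -/
theorem uni_even {s : ℕ} (hs : 1 ≤ s) {p : ℝ} (hp : 2 ≤ p) {d n : ℕ} (hd : 1 ≤ d)
    {T : Fin n → (Fin (s + s) → Fin d) → ℝ} (hT : ∀ i, IsSymT (T i)) :
    ∫ g : Fin n → ℝ, injNorm p (∑ i, g i • T i) ∂gauss n ≤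
      (100 * 6 ^ s * ((s + s : ℕ) : ℝ) ^ (s + s + 1)) * Real.sqrt (1 + Real.log d) *
        (d : ℝ) ^ (1 / 2 - 1 / max p (s + s : ℕ)) * Real.sqrt (∑ i, injNorm p (T i) ^ 2) := by
  have hp0 : 0 < p := by linarith
  have hss : s + s ≠ 0 := by omega
  refine gauss_of_rad hp0 hss T (by positivity) ?_
  intro g
  have h2 := rad_even hs hd hp (T := fun i => g i • T i)
    (fun i σ k => by simp only [Pi.smul_apply, hT i σ k])
  simp only [smul_smul] at h2
  refine h2.trans ?_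
  have h3 : ∑ i, injNorm p (g i • T i) ^ 2 ≤ ∑ i, (|g i| * injNorm p (T i)) ^ 2 :=
    Finset.sum_le_sum fun i _ => pow_le_pow_left₀ (injNorm_nonneg hp0 _)
      (injNorm_smul_le hp0 hss _ _) 2
  have h4 := Real.sqrt_le_sqrt h3
  gcongr

/-- every `r` -/
theorem uni_all {r : ℕ} (hr : 1 ≤ r) : ∃ C : ℝ, 0 ≤ C ∧ ∀ p : ℝ, 2 ≤ p → ∀ d n : ℕ, 1 ≤ d →
    ∀ T : Fin n → (Fin r → Fin d) → ℝ, (∀ i, IsSymT (T i)) →
      Integrable (fun g : Fin n → ℝ => injNorm p (∑ i, g i • T i)) (gauss n) ∧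
      ∫ g : Fin n → ℝ, injNorm p (∑ i, g i • T i) ∂gauss n ≤
        C * Real.sqrt (1 + Real.log d) * (d : ℝ) ^ (1 / 2 - 1 / max p (2 * ((r + 1) / 2) : ℕ)) *
          Real.sqrt (∑ i, injNorm p (T i) ^ 2) := by
  rcases Nat.even_or_odd' r with ⟨s, h | h⟩
  · subst h
    have h1 : 2 * ((2 * s + 1) / 2) = s + s := by omega
    have h2 : 2 * s = s + s := by omega
    rw [h1, h2]
    refine ⟨100 * 6 ^ s * ((s + s : ℕ) : ℝ) ^ (s + s + 1), by positivity, fun p hp d n hd T hT =>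
      ⟨integrable_injNorm (by linarith) (by omega) T, uni_even (by omega) hp hd hT⟩⟩
  · subst h
    have h1 : 2 * ((2 * s + 1 + 1) / 2) = (s + 1) + (s + 1) := by omega
    rw [h1]
    refine ⟨2 ^ (2 * s + 1 + 1) * (100 * 6 ^ (s + 1) *
      (((s + 1) + (s + 1) : ℕ) : ℝ) ^ ((s + 1) + (s + 1) + 1)) * 4, by positivity,
      fun p hp d n hd T hT => ⟨integrable_injNorm (by linarith) (by omega) T, ?_⟩⟩
    have hp0 : 0 < p := by linarith
    have hd1 : (1 : ℝ) ≤ d := by exact_mod_cast hd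
    have hd0 : (0 : ℝ) < d := by linarith
    have hlogd : 0 ≤ Real.log d := Real.log_nonneg hd1
    set P : ℝ := max p ((s + 1) + (s + 1) : ℕ) with hP
    have hP2 : 2 ≤ P := hp.trans (le_max_left _ _)
    have hE : 0 ≤ 1 / 2 - 1 / P := by
      have : 1 / P ≤ 1 / 2 := one_div_le_one_div_of_le (by norm_num) hP2
      linarith
    have hE1 : 1 / 2 - 1 / P ≤ 1 := by
      have : 0 ≤ 1 / P := by positivity
      linarith
    have h2 : 2 * s + 1 + 1 = (s + 1) + (s + 1) := by omega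
    have key : ∀ {m : ℕ} (_ : 2 * s + 1 + 1 = m) (Q : Fin n → (Fin m → Fin (d + 1)) → ℝ),
        (∀ i, IsSymT (Q i)) →
        ∫ g : Fin n → ℝ, injNorm p (∑ i, g i • Q i) ∂gauss n ≤
      (100 * 6 ^ (s + 1) * ((m : ℕ) : ℝ) ^ (m + 1)) * Real.sqrt (1 + Real.log ((d + 1 : ℕ) : ℝ)) *
        ((d + 1 : ℕ) : ℝ) ^ (1 / 2 - 1 / max p (m : ℕ)) * Real.sqrt (∑ i, injNorm p (Q i) ^ 2) := by
      intro m hm Q hQ
      have hm' : m = (s + 1) + (s + 1) := by omega
      subst hm'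
      exact uni_even (s := s + 1) (by omega) hp (by omega) hQ
    have hb := key rfl (fun i => multT (T i)) (fun i => multT_sym (hT i))
    have e0 : max p ((2 * s + 1 + 1 : ℕ) : ℝ) = P := by rw [hP, h2]
    rw [e0] at hb
    have h3 : ∫ g : Fin n → ℝ, injNorm p (∑ i, g i • T i) ∂gauss n
        ≤ 2 ^ (2 * s + 1 + 1) * ∫ g : Fin n → ℝ, injNorm p (∑ i, g i • multT (T i)) ∂gauss n := by
      rw [← integral_const_mul]
      refine integral_mono (integrable_injNorm hp0 (by omega) T)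
        ((integrable_injNorm hp0 (by omega) _).const_mul _) fun g => ?_
      change injNorm p (∑ i, g i • T i) ≤ 2 ^ (2 * s + 1 + 1) * injNorm p (∑ i, g i • multT (T i))
      rw [← multT_sum]
      exact injNorm_le_multT (by linarith) (by omega) _
    have h4 : Real.sqrt (∑ i, injNorm p (multT (T i)) ^ 2) ≤ Real.sqrt (∑ i, injNorm p (T i) ^ 2) := by
      apply Real.sqrt_le_sqrt
      refine Finset.sum_le_sum fun i _ => ?_
      exact pow_le_pow_left₀ (injNorm_nonneg hp0 _) (injNorm_multT_le (by linarith) (by omega) _) 2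
    have h5 : (((d + 1 : ℕ) : ℝ)) ^ (1 / 2 - 1 / P) ≤ 2 * (d : ℝ) ^ (1 / 2 - 1 / P) := by
      have e1 : (((d + 1 : ℕ) : ℝ)) ^ (1 / 2 - 1 / P) ≤ (2 * (d : ℝ)) ^ (1 / 2 - 1 / P) := by
        refine Real.rpow_le_rpow (by positivity) ?_ hE
        push_cast
        linarith
      rw [Real.mul_rpow (by norm_num) hd0.le] at e1
      have e2 : (2 : ℝ) ^ (1 / 2 - 1 / P) ≤ 2 := by
        calc (2 : ℝ) ^ (1 / 2 - 1 / P) ≤ 2 ^ (1 : ℝ) :=
              Real.rpow_le_rpow_of_exponent_le (by norm_num) hE1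
          _ = 2 := Real.rpow_one 2
      refine e1.trans ?_
      gcongr
    have h6 : Real.sqrt (1 + Real.log ((d + 1 : ℕ) : ℝ)) ≤ 2 * Real.sqrt (1 + Real.log d) := by
      have e1 : Real.log ((d + 1 : ℕ) : ℝ) ≤ Real.log (2 * d) := by
        apply Real.log_le_log (by positivity)
        push_cast
        linarith
      rw [Real.log_mul (by norm_num) hd0.ne'] at e1
      have e2 := Real.log_two_lt_d9
      have e3 : 1 + Real.log ((d + 1 : ℕ) : ℝ) ≤ 2 ^ 2 * (1 + Real.log d) := by linarith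
      refine (Real.sqrt_le_sqrt e3).trans ?_
      rw [Real.sqrt_mul (by norm_num), Real.sqrt_sq (by norm_num)]
    have h7 : ((2 * s + 1 + 1 : ℕ) : ℝ) = (((s + 1) + (s + 1) : ℕ) : ℝ) := by rw [h2]
    calc ∫ g : Fin n → ℝ, injNorm p (∑ i, g i • T i) ∂gauss n
        ≤ 2 ^ (2 * s + 1 + 1) * ∫ g : Fin n → ℝ, injNorm p (∑ i, g i • multT (T i)) ∂gauss n := h3
      _ ≤ 2 ^ (2 * s + 1 + 1) * ((100 * 6 ^ (s + 1) * (((2 * s + 1 + 1 : ℕ) : ℕ) : ℝ) ^
            ((2 * s + 1 + 1) + 1)) * Real.sqrt (1 + Real.log ((d + 1 : ℕ) : ℝ)) *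
            ((d + 1 : ℕ) : ℝ) ^ (1 / 2 - 1 / P) * Real.sqrt (∑ i, injNorm p (multT (T i)) ^ 2)) :=
          mul_le_mul_of_nonneg_left hb (by positivity)
      _ ≤ 2 ^ (2 * s + 1 + 1) * ((100 * 6 ^ (s + 1) * (((2 * s + 1 + 1 : ℕ) : ℕ) : ℝ) ^
            ((2 * s + 1 + 1) + 1)) * (2 * Real.sqrt (1 + Real.log d)) *
            (2 * (d : ℝ) ^ (1 / 2 - 1 / P)) * Real.sqrt (∑ i, injNorm p (T i) ^ 2)) := by
          gcongr
      _ = _ := by
          rw [h7, h2]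
          ring

end Pool.Agent.InjB
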